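import Pool.Agent.W_7d29a1_HK20.ExK20
import Pool.Agent.W_7d29a1_HS.MaxM
import Pool.Agent.W_7d29a1_h47q.MainR

/-!
MP_7d29a1_pr, KPZRelation (helper20): the velocities `λ'(h)` fill the interval `(-1, 1)`.
-/

set_option autoImplicit false

namespace Pool.Agent.W_7d29a1_HK20

open MeasureTheory ProbabilityTheory Filter Topology Set
open Pool.Agent.W_7d29a1_F Pool.Agent.W_7d29a1_h4g Pool.Agent.W_7d29a1_H Pool.Agent.W_7d29a1_HS
open Pool.Agent.W_7d29a1_h47 (EM Nondeg Lam LamN endMGF EM_of Nondeg_of map_toEnv tendsto_logZ log_endMGF exists_max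
  PC_LamN)

/-- The range of the velocities. -/
theorem range20 {μ : Measure ℝ} [IsProbabilityMeasure μ] (hμ : EM μ) (hnd : Nondeg μ) :
    Set.range (deriv (LamN μ)) = Set.Ioo (-1) 1 := by
  have hdl : ∀ h : ℝ, HasDerivAt (LamN μ) (vel μ h) h := fun h => (Lam_hasDeriv20 hμ hnd h).sub_const (Lam μ 0)
  have hdv : ∀ h : ℝ, deriv (LamN μ) h = vel μ h := fun h => (hdl h).deriv
  refine Set.Subset.antisymm ?_ ?_
  · rintro _ ⟨h, rfl⟩
    rw [hdv]
    have h1 := sl_mem hμ hnd (2 * h)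
    unfold vel
    exact ⟨by linarith [h1.1], by linarith [h1.2]⟩
  · intro v hv
    obtain ⟨h, hh⟩ := exists_max (PC_LamN hμ hnd) (v := v) (abs_lt.2 hv)
    refine ⟨h, ?_⟩
    have h1 : HasDerivAt (fun x : ℝ => x * v - LamN μ x) (1 * v - vel μ h) h := ((hasDerivAt_id h).mul_const v).sub (hdl h)
    have h2 : IsLocalMax (fun x : ℝ => x * v - LamN μ x) h := Eventually.of_forall hh
    have h3 := h2.hasDerivAt_eq_zero h1
    rw [hdv]
    linarith

/-- The free energy is determined by the limit. -/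
theorem lim_unique20 {Ω : Type*} [MeasurableSpace Ω] (P : Measure Ω) [IsProbabilityMeasure P]
    (ω : ℕ × ℤ → Ω → ℝ) (hmeas : ∀ p, Measurable (ω p)) (hindep : iIndepFun ω P)
    (hident : ∀ p q, IdentDistrib (ω p) (ω q) P P) (hnc : ¬ ∃ c : ℝ, ∀ᵐ x ∂P, ω (0, 0) x = c)
    (hexp : ∀ b : ℝ, Integrable (fun x => Real.exp (b * ω (0, 0) x)) P) {β : ℝ} (hβ : 0 < β) {lam : ℝ → ℝ}
    (hlim : ∀ h, ∀ᵐ x ∂P, Tendsto (fun n : ℕ => Real.log (endMGF β h (fun p => ω p x) n) / n) atTop (𝓝 (lam h))) :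
    Set.range (deriv lam) = Set.Ioo (-1) 1 := by
  obtain ⟨μ, hμdef⟩ : ∃ μ : Measure ℝ, μ = P.map fun x => β * ω (0, 0) x := ⟨_, rfl⟩
  have hm0 : Measurable fun x => β * ω (0, 0) x := (hmeas _).const_mul β
  have hprob : IsProbabilityMeasure μ := by
    rw [hμdef]
    exact Measure.isProbabilityMeasure_map hm0.aemeasurable
  have hμ : EM μ := by
    rw [hμdef]
    exact EM_of (hmeas _) hexp β
  have hnd : Nondeg μ := by
    rw [hμdef]
    exact Nondeg_of (hmeas _) hnc hβ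
  have hmpE := map_toEnv hmeas hindep hident β
  rw [← hμdef] at hmpE
  have hid : lam = LamN μ := by
    funext h
    have g1 := hmpE.quasiMeasurePreserving.ae (tendsto_logZ hμ h)
    have g2 := hmpE.quasiMeasurePreserving.ae (tendsto_logZ hμ 0)
    obtain ⟨x, hx1, hx2, hx3⟩ := (g1.and (g2.and (hlim h))).exists
    refine tendsto_nhds_unique hx3 ((hx1.sub hx2).congr fun n => ?_)
    rw [log_endMGF, sub_div]
  rw [hid]
  exact range20 hμ hnd

end Pool.Agent.W_7d29a1_HK20
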