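import Pool.Agent.W_7d29a1_HK20.CoreS
import Pool.Agent.W_7d29a1_HS.MomE
import Pool.Agent.W_7d29a1_HS.VarS
import Pool.Agent.W_7d29a1_HS.VarW
import Pool.Agent.W_7d29a1_HS.ExitE
import Pool.Agent.W_7d29a1_HS.Tight

/-!
MP_7d29a1_pr, KPZRelation (helper20): the facts at one tilt from the input of the scaling law.
-/

set_option autoImplicit false

namespace Pool.Agent.W_7d29a1_HK20

open MeasureTheory ProbabilityTheory Filter Topology
open Pool.Agent.W_7d29a1_F Pool.Agent.W_7d29a1_h4g Pool.Agent.W_7d29a1_H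
open Pool.Agent.W_7d29a1_HS (In)

variable {μ : Measure ℝ} [IsProbabilityMeasure μ] {s c C : ℝ} {n₀ : ℕ}

theorem fac_of (h : In μ s c C n₀) : Fac μ s where
  mean := Pool.Agent.W_7d29a1_HS.mean_V h
  mom := Pool.Agent.W_7d29a1_HS.moments h 2
  dev := Pool.Agent.W_7d29a1_HS.dev_V_exp h
  luck := Pool.Agent.W_7d29a1_HS.lucky h
  var := Pool.Agent.W_7d29a1_HS.var_ge h
  exit := Pool.Agent.W_7d29a1_HS.exitE h (Pool.Agent.W_7d29a1_HS.tail_V_exp h)
  tight := fun _ hε => Pool.Agent.W_7d29a1_HS.tight h hε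
  varw := Pool.Agent.W_7d29a1_HS.var_ge_w h (Pool.Agent.W_7d29a1_HS.tail_V h 1)

end Pool.Agent.W_7d29a1_HK20
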