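import Pool.Agent.W_7d29a1_HK20.MainK20
import Pool.Agent.W_7d29a1_HK20.FacOf20
import Pool.Agent.W_7d29a1_HS.InAll
import Pool.Agent.W_7d29a1_HN.NPMain
import Pool.Agent.W_7d29a1_HX.XA_Leaves
import Pool.Agent.W_7d29a1_HE.Ei

/-!
MP_7d29a1_pr, KPZRelation (helper20): the inputs of parts 1 - 4 of TRACK H, closed.
-/

set_option autoImplicit false

namespace Pool.Agent.W_7d29a1_HK20

open MeasureTheory ProbabilityTheory Filter Topology
open Pool.Agent.W_7d29a1_F Pool.Agent.W_7d29a1_h4g Pool.Agent.W_7d29a1_H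
open Pool.Agent.W_7d29a1_HS (In vel)
open Pool.Agent.W_7d29a1_h47 (EM Nondeg)
open Pool.Agent.W_7d29a1_SR (toF)

/-- The inputs, without hypotheses. -/
theorem inp20 (μ : Measure ℝ) [IsProbabilityMeasure μ] (hμ : EM μ) (hnd : Nondeg μ) : Inp20 μ where
  inn := Pool.Agent.W_7d29a1_HS.in_tilt hμ hnd
  fac s := by
    obtain ⟨c, C, n₀, h⟩ := Pool.Agent.W_7d29a1_HS.in_tilt hμ hnd s
    exact fac_of h
  dbl H := (out_all hμ hnd H).dbl
  np s := by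
    obtain ⟨c, C, n₀, h⟩ := Pool.Agent.W_7d29a1_HS.in_tilt hμ hnd s
    exact Pool.Agent.W_7d29a1_HN.np_tilt h
  sc s := by
    obtain ⟨c, C, n₀, h⟩ := Pool.Agent.W_7d29a1_HS.in_tilt hμ hnd s
    exact sc_two20 (Pool.Agent.W_7d29a1_HX.XA.super_tilt_two h) fun n => EE_pos n

/-- The spread of the end point. -/
theorem end20 {Ω : Type*} [MeasurableSpace Ω] {P : Measure Ω} [IsProbabilityMeasure P] {ω : ℕ × ℤ → Ω → ℝ} {β : ℝ}
    (hmeas : ∀ p, Measurable (ω p)) (μ : Measure ℝ) [IsProbabilityMeasure μ] (hμ : EM μ) (hnd : Nondeg μ)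
    (hmp : MeasurePreserving (fun x => toF β fun p => ω p x) P (law μ)) (h : ℝ) :
    End20 P β h (vel μ h) ω (Pool.Agent.W_7d29a1_HS.wd μ (2 * h)) := by
  obtain ⟨c, C, n₀, hI⟩ := Pool.Agent.W_7d29a1_HS.in_tilt hμ hnd (2 * h)
  have h1 : End20 P β h (vel μ h) ω (Pool.Agent.W_7d29a1_HS.wth P β h ω fun v => J μ (2 * h) (v / 2)) := fun ε hε => by
    obtain ⟨c', hc', n₁, h2⟩ := Pool.Agent.W_7d29a1_HE.endS_P (P := P) (β := β) (ω := ω) hI hmeas hmp hε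
    exact ⟨c', hc', eventually_atTop.2 ⟨n₁, h2⟩⟩
  obtain ⟨a₁, A₁, b, B, -, -, hb, -, n₂, -, hsc⟩ := Pool.Agent.W_7d29a1_HS.scales (P := P) (β := β) (ω := ω) hI hmp
  refine h1.of_le hmeas (B := 1 / b) (by positivity) (eventually_atTop.2 ⟨n₂, fun n hn => ?_⟩)
  rw [one_div, ← div_eq_inv_mul, le_div_iff₀ hb]
  have h2 := (hsc n hn).2.2.1
  linarith

end Pool.Agent.W_7d29a1_HK20
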