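import Pool.Agent.W_7d29a1_H.DenseH3
import Pool.Agent.W_7d29a1_HS.TransC

/-!
MP_7d29a1_pr, KPZRelation (helper20): the second order increments of the free energy, in the coordinates of the problem.
-/

set_option autoImplicit false

namespace Pool.Agent.W_7d29a1_HK20

open MeasureTheory ProbabilityTheory Filter Topology Set
open Pool.Agent.W_7d29a1_F Pool.Agent.W_7d29a1_H Pool.Agent.W_7d29a1_HS
open Pool.Agent.W_7d29a1_h47 (EM Nondeg Lam)

variable {μ : Measure ℝ} [IsProbabilityMeasure μ]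

/-- The free energy is differentiable. -/
theorem Lam_hasDeriv20 (hμ : EM μ) (hnd : Nondeg μ) (h : ℝ) : HasDerivAt (Lam μ) (vel μ h) h := by
  have h1 : HasDerivAt (lam μ) (sl μ (2 * h)) (2 * h) := (differentiable_lam hμ hnd (2 * h)).hasDerivAt
  have h2 : Lam μ = fun x => lam μ (2 * x) - x := by
    funext x
    unfold lam
    rw [mul_div_cancel_left₀ _ (two_ne_zero' ℝ)]
    ring
  have h3 : HasDerivAt (fun x : ℝ => 2 * x) 2 h := by simpa using (hasDerivAt_id h).const_mul 2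
  have h4 : HasDerivAt (fun x => lam μ (2 * x) - x) (sl μ (2 * h) * 2 - 1) h :=
    (HasDerivAt.comp h h1 h3).sub (hasDerivAt_id h)
  rw [h2]
  refine h4.congr_deriv ?_
  unfold vel
  ring

/-- The increments beyond `1`. -/
theorem ex_two20 (hμ : EM μ) {s r : ℝ} (hr : |r| ≤ 2) : 2 * ex μ s (r / 2) ≤ ex μ s r ∧ |r / 2| ≤ 1 := by
  have h1 := ex_mul_le (μ := μ) hμ s (t := 1 / 2) (by norm_num) (by norm_num) r
  rw [show (1 / 2 : ℝ) * r = r / 2 by ring] at h1
  refine ⟨by linarith, ?_⟩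
  rw [abs_div, abs_of_pos (two_pos : (0 : ℝ) < 2)]
  linarith

/-- **The second order increments of the free energy**, uniformly for bounded forces. -/
theorem exK20 (hμ : EM μ) (hnd : Nondeg μ) (hdbl : ∀ H : ℝ, DblH μ (Icc (-H) H)) (H : ℝ) : ∃ c C p : ℝ, 0 < c ∧ 0 < C ∧ 0 < p ∧
    ∀ s ∈ Icc (-H) H, ∀ r : ℝ, |r| ≤ 2 → c * |r| ^ 100 ≤ ex μ s r ∧ ex μ s r ≤ C * |r| ^ (1 + p) ∧
      ex μ s (2 * r) ≤ C * ex μ s r ∧ ex μ s (-r) ≤ C * ex μ s r := by
  obtain ⟨c, C, p, hc, hC, hp, hpw⟩ := ex_powH hμ hnd (hdbl (H + 1))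
  obtain ⟨D, hD, hd⟩ := ex_dblH hμ hnd (hdbl (H + 1))
  obtain ⟨B, hB, hb⟩ := ex_balH hμ hnd (hdbl (H + 2))
  obtain ⟨E, hE⟩ : ∃ E : ℝ, E = max (max C 1) (max (max D B) (4 / (2 * (c / 2 ^ 100)))) := ⟨_, rfl⟩
  have e1 : C ≤ E := by rw [hE]; exact (le_max_left _ _).trans (le_max_left _ _)
  have e2 : 1 ≤ E := by rw [hE]; exact (le_max_right _ _).trans (le_max_left _ _)
  have e3 : D ≤ E := by rw [hE]; exact (le_max_left _ _).trans ((le_max_left _ _).trans (le_max_right _ _))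
  have e4 : B ≤ E := by rw [hE]; exact (le_max_right _ _).trans ((le_max_left _ _).trans (le_max_right _ _))
  have e5 : 4 / (2 * (c / 2 ^ 100)) ≤ E := by rw [hE]; exact (le_max_right _ _).trans (le_max_right _ _)
  have hE0 : 0 < E := by linarith
  refine ⟨c / 2 ^ 100, E, p - 1, by positivity, hE0, by linarith, fun s hs r hr => ?_⟩
  have h0 := ex_nonneg hμ hnd s r
  obtain ⟨k1, k2⟩ := ex_two20 hμ (s := s) hr
  have k3 := (hpw s hs (r / 2) k2).1
  have hr2 : |r / 2| = |r| / 2 := by rw [abs_div, abs_of_pos (two_pos : (0 : ℝ) < 2)]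
  have hlow : 2 * (c / 2 ^ 100 * |r| ^ 100) ≤ ex μ s r := by
    rw [hr2, div_pow] at k3
    have e : c / 2 ^ 100 * |r| ^ 100 = c * (|r| ^ 100 / 2 ^ 100) := by ring
    rw [e]
    linarith
  have hp0 : 0 ≤ c / 2 ^ 100 * |r| ^ 100 := by positivity
  rw [show 1 + (p - 1) = p by ring]
  refine ⟨by linarith, ?_, ?_, ?_⟩
  · rcases le_total |r| 1 with h1 | h1
    · exact (hpw s hs r h1).2.trans (mul_le_mul_of_nonneg_right e1 (Real.rpow_nonneg (abs_nonneg r) p))
    · have h2 := ex_le hμ hnd s r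
      have h3 : |r| ≤ |r| ^ p := by
        calc |r| = |r| ^ (1 : ℝ) := (Real.rpow_one _).symm
          _ ≤ |r| ^ p := Real.rpow_le_rpow_of_exponent_le h1 hp.le
      calc ex μ s r ≤ 1 * |r| ^ p := by linarith
        _ ≤ E * |r| ^ p := mul_le_mul_of_nonneg_right e2 (Real.rpow_nonneg (abs_nonneg r) p)
  · rcases le_total |r| 1 with h1 | h1
    · exact (hd s hs r h1).trans (mul_le_mul_of_nonneg_right e3 h0)
    · have h2 := ex_le hμ hnd s (2 * r)
      rw [abs_mul, abs_of_pos (two_pos : (0 : ℝ) < 2)] at h2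
      have h3 : (1 : ℝ) ≤ |r| ^ 100 := one_le_pow₀ h1
      have h4 : 2 * (c / 2 ^ 100) ≤ ex μ s r := by
        have := mul_le_mul_of_nonneg_left h3 (show 0 ≤ c / 2 ^ 100 by positivity)
        linarith
      have h5 : (4 : ℝ) ≤ 4 / (2 * (c / 2 ^ 100)) * ex μ s r := by
        rw [div_mul_eq_mul_div, le_div_iff₀ (by positivity)]
        linarith
      have h6 := mul_le_mul_of_nonneg_right e5 h0
      linarith
  · rcases le_total |r| 1 with h1 | h1
    · exact (hb s hs r h1).trans (mul_le_mul_of_nonneg_right e4 h0)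
    · have h2 := ex_le hμ hnd s (-r)
      rw [abs_neg] at h2
      have h3 : (1 : ℝ) ≤ |r| ^ 100 := one_le_pow₀ h1
      have h4 : 2 * (c / 2 ^ 100) ≤ ex μ s r := by
        have := mul_le_mul_of_nonneg_left h3 (show 0 ≤ c / 2 ^ 100 by positivity)
        linarith
      have h5 : (4 : ℝ) ≤ 4 / (2 * (c / 2 ^ 100)) * ex μ s r := by
        rw [div_mul_eq_mul_div, le_div_iff₀ (by positivity)]
        linarith
      have h6 := mul_le_mul_of_nonneg_right e5 h0
      linarith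

/-- The same in the coordinates of the problem. -/
theorem LamK20 (hμ : EM μ) (hnd : Nondeg μ) (hdbl : ∀ H : ℝ, DblH μ (Icc (-H) H)) (H : ℝ) : ∃ c C : ℝ, 0 < c ∧
    ∀ h r : ℝ, |h| ≤ H → |r| ≤ 1 →
      c * |r| ^ C ≤ Lam μ (h + r) - Lam μ h - r * vel μ h ∧
      Lam μ (h + r) - Lam μ h - r * vel μ h ≤ C * |r| ^ (1 + c) ∧
      Lam μ (h + 2 * r) - Lam μ h - 2 * r * vel μ h ≤ C * (Lam μ (h + r) - Lam μ h - r * vel μ h) ∧
      Lam μ (h - r) - Lam μ h + r * vel μ h ≤ C * (Lam μ (h + r) - Lam μ h - r * vel μ h) := by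
  obtain ⟨c, C, p, hc, hC, hp, hall⟩ := exK20 hμ hnd hdbl (2 * H)
  obtain ⟨E, hE⟩ : ∃ E : ℝ, E = max (C * 2 ^ (1 + p)) (max C 100) := ⟨_, rfl⟩
  have e1 : C * 2 ^ (1 + p) ≤ E := by rw [hE]; exact le_max_left _ _
  have e2 : C ≤ E := by rw [hE]; exact (le_max_left _ _).trans (le_max_right _ _)
  have e3 : 100 ≤ E := by rw [hE]; exact (le_max_right _ _).trans (le_max_right _ _)
  refine ⟨min c p, E, lt_min hc hp, fun h r hh hr => ?_⟩
  have key : ∀ t : ℝ, Lam μ (h + t) - Lam μ h - t * vel μ h = ex μ (2 * h) (2 * t) := fun t => by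
    rw [ex_vel, mul_div_cancel_left₀ t (two_ne_zero' ℝ)]
  have hs : 2 * h ∈ Icc (-(2 * H)) (2 * H) := by
    have := abs_le.1 hh
    exact ⟨by linarith, by linarith⟩
  have hr2 : |2 * r| = 2 * |r| := by rw [abs_mul, abs_of_pos (two_pos : (0 : ℝ) < 2)]
  obtain ⟨k1, k2, k3, k4⟩ := hall (2 * h) hs (2 * r) (by rw [hr2]; linarith)
  have h0 := ex_nonneg hμ hnd (2 * h) (2 * r)
  have f2 : Lam μ (h + 2 * r) - Lam μ h - 2 * r * vel μ h = ex μ (2 * h) (2 * (2 * r)) := key (2 * r)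
  have f3 : Lam μ (h - r) - Lam μ h + r * vel μ h = ex μ (2 * h) (-(2 * r)) := by
    have := key (-r)
    rw [show 2 * -r = -(2 * r) by ring] at this
    rw [← this]
    ring_nf
  rw [key r, f2, f3]
  rw [hr2] at k1 k2
  refine ⟨?_, ?_, k3.trans (mul_le_mul_of_nonneg_right e2 h0), k4.trans (mul_le_mul_of_nonneg_right e2 h0)⟩
  · refine le_trans ?_ k1
    have g1 : |r| ^ E ≤ (2 * |r|) ^ 100 := by
      rcases eq_or_lt_of_le (abs_nonneg r) with h1 | h1
      · rw [← h1, Real.zero_rpow (by linarith)]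
        norm_num
      · calc |r| ^ E ≤ |r| ^ (100 : ℝ) := Real.rpow_le_rpow_of_exponent_ge h1 hr e3
          _ = |r| ^ 100 := by
            rw [← Real.rpow_natCast]
            norm_num
          _ ≤ (2 * |r|) ^ 100 := pow_le_pow_left₀ (abs_nonneg r) (by linarith) 100
    exact mul_le_mul (min_le_left _ _) g1 (Real.rpow_nonneg (abs_nonneg r) _) hc.le
  · refine k2.trans ?_
    rcases eq_or_lt_of_le (abs_nonneg r) with h1 | h1
    · have hm : 0 < min c p := lt_min hc hp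
      rw [← h1, mul_zero, Real.zero_rpow (by linarith), Real.zero_rpow (by linarith), mul_zero, mul_zero]
    · rw [Real.mul_rpow (by norm_num) h1.le, ← mul_assoc]
      refine mul_le_mul e1 (Real.rpow_le_rpow_of_exponent_ge h1 hr (by linarith [min_le_right c p]))
        (Real.rpow_nonneg h1.le _) (by linarith)

end Pool.Agent.W_7d29a1_HK20
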