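import Pool.Agent.W_7d29a1_HK20.PowK20
import Pool.Agent.W_7d29a1_HK20.ExK20
import Pool.Agent.W_7d29a1_h47q.MainR

/-!
MP_7d29a1_pr, KPZRelation (helper20): the theorem on the probability space of the problem.
-/

set_option autoImplicit false

namespace Pool.Agent.W_7d29a1_HK20

open MeasureTheory ProbabilityTheory Filter Topology Set
open Pool.Agent.W_7d29a1_F Pool.Agent.W_7d29a1_h4g Pool.Agent.W_7d29a1_H Pool.Agent.W_7d29a1_HS
open Pool.Agent.W_7d29a1_h47 (EM Nondeg Lam LamN walk energy endMGF forceP forceE EM_of Nondeg_of map_toEnv tendsto_logZ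
  log_endMGF)
open Pool.Agent.W_7d29a1_SR (toF mp_toF)

section endpoint

variable {Ω : Type*} [MeasurableSpace Ω] {P : Measure Ω} [IsProbabilityMeasure P] {ω : ℕ × ℤ → Ω → ℝ} {β : ℝ}

/-- The end point event. -/
def enb (n : ℕ) (v r : ℝ) : Set (Fin n → Bool) := {s | |(walk s n : ℝ) - v * n| ≤ r}

theorem enb_mono (n : ℕ) (v : ℝ) {r r' : ℝ} (h : r ≤ r') : enb n v r ⊆ enb n v r' := fun _ hs => le_trans hs h

/-- The end point is spread at the scale `w`. -/
def End20 (P : Measure Ω) (β h v : ℝ) (ω : ℕ × ℤ → Ω → ℝ) (w : ℕ → ℝ) : Prop :=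
  ∀ ε : ℝ, 0 < ε → ∃ a : ℝ, 0 < a ∧ ∀ᶠ n : ℕ in atTop,
    ∫ x, forceP β h (fun p => ω p x) n (enb n v (a * w n)) ∂P ≤ ε

theorem End20.of_le {h v : ℝ} {w w' : ℕ → ℝ} (hmeas : ∀ p, Measurable (ω p)) (hE : End20 P β h v ω w) {B : ℝ} (hB : 0 < B)
    (hw : ∀ᶠ n : ℕ in atTop, w' n ≤ B * w n) : End20 P β h v ω w' := by
  intro ε hε
  obtain ⟨a, ha, h1⟩ := hE ε hε
  refine ⟨a / B, by positivity, ?_⟩
  filter_upwards [h1, hw] with n h2 h3
  refine le_trans (integral_mono (forceP_integrable hmeas β h n _) (forceP_integrable hmeas β h n _) fun x =>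
    forceP_mono _ _ _ _ (enb_mono n v ?_)) h2
  have h4 := mul_le_mul_of_nonneg_left h3 (show 0 ≤ a / B by positivity)
  refine h4.trans (le_of_eq ?_)
  field_simp

/-- The moments of the end point. -/
theorem End20.mom {h v : ℝ} {w : ℕ → ℝ} (hmeas : ∀ p, Measurable (ω p)) (hE : End20 P β h v ω w)
    (hw : ∀ᶠ n : ℕ in atTop, 0 ≤ w n) (q : ℕ) : ∃ a : ℝ, 0 < a ∧ ∀ᶠ n : ℕ in atTop,
      a * w n ^ q ≤ ∫ x, forceE β h (fun p => ω p x) n (fun s => |(walk s n : ℝ) - v * n| ^ q) ∂P := by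
  classical
  obtain ⟨c', hc', h1⟩ := hE (1 / 2) (by norm_num)
  refine ⟨c' ^ q / 2, by positivity, ?_⟩
  filter_upwards [h1, hw] with n h2 hw0
  have h3 : ∀ x, (c' * w n) ^ q * (1 - forceP β h (fun p => ω p x) n (enb n v (c' * w n))) ≤
      forceE β h (fun p => ω p x) n (fun s => |(walk s n : ℝ) - v * n| ^ q) := by
    intro x
    rw [← forceE_ind, ← forceE_mul']
    refine forceE_mono' β h _ n fun s => ?_
    by_cases h4 : s ∈ enb n v (c' * w n)
    · rw [if_pos h4, mul_zero]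
      positivity
    · rw [if_neg h4, mul_one]
      have h5 : ¬ |(walk s n : ℝ) - v * n| ≤ c' * w n := h4
      rw [not_le] at h5
      exact pow_le_pow_left₀ (by positivity) h5.le q
  have hI : Integrable (fun x => (c' * w n) ^ q * (1 - forceP β h (fun p => ω p x) n (enb n v (c' * w n)))) P :=
    ((integrable_const (1 : ℝ)).sub (forceP_integrable (P := P) hmeas β h n (enb n v (c' * w n)))).const_mul _
  have h5 := integral_mono hI (forceE_integrable hmeas β h n _) h3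
  refine le_trans ?_ h5
  rw [integral_const_mul, integral_sub (integrable_const _) (forceP_integrable hmeas β h n _), integral_const,
    probReal_univ, one_smul, mul_pow]
  have h6 : (1 : ℝ) / 2 ≤ 1 - ∫ x, forceP β h (fun p => ω p x) n (enb n v (c' * w n)) ∂P := by linarith
  have h7 := mul_le_mul_of_nonneg_left h6 (show 0 ≤ c' ^ q * w n ^ q by positivity)
  linarith

end endpoint

/-- The inputs at all tilts, parts 1 - 4 of TRACK H (law of the environment). -/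
structure Inp20 (μ : Measure ℝ) [IsProbabilityMeasure μ] : Prop where
  inn : ∀ s : ℝ, ∃ (c C : ℝ) (n₀ : ℕ), In μ s c C n₀
  fac : ∀ s : ℝ, Fac μ s
  dbl : ∀ H : ℝ, DblH μ (Icc (-H) H)
  np : ∀ s : ℝ, NP20 μ s
  sc : ∀ s : ℝ, SC20 μ s

/-- **KPZRelation** from the inputs. -/
theorem main_K20 (hInp : ∀ (μ : Measure ℝ) [IsProbabilityMeasure μ], EM μ → Nondeg μ → Inp20 μ)
    {Ω : Type*} [MeasurableSpace Ω] (P : Measure Ω) [IsProbabilityMeasure P]
    (ω : ℕ × ℤ → Ω → ℝ) (hmeas : ∀ p, Measurable (ω p)) (hindep : iIndepFun ω P)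
    (hident : ∀ p q, IdentDistrib (ω p) (ω q) P P) (hnc : ¬ ∃ c : ℝ, ∀ᵐ x ∂P, ω (0, 0) x = c)
    (hexp : ∀ b : ℝ, Integrable (fun x => Real.exp (b * ω (0, 0) x)) P) {β : ℝ} (hβ : 0 < β)
    (hEnd : ∀ (μ : Measure ℝ) [IsProbabilityMeasure μ], EM μ → Nondeg μ →
      MeasurePreserving (fun x => toF β fun p => ω p x) P (law μ) → ∀ h : ℝ, End20 P β h (vel μ h) ω (wd μ (2 * h))) :
    ∃ (lam : ℝ → ℝ) (σ : ℝ → ℕ → ℝ), Differentiable ℝ lam ∧
      (∀ h, ∀ᵐ x ∂P, Tendsto (fun n : ℕ => Real.log (endMGF β h (fun p => ω p x) n) / n) atTop (𝓝 (lam h))) ∧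
      (∀ h n, σ h n = Real.sqrt (Var[fun x => Real.log (parZ β h (fun p => ω p x) n); P])) ∧
      -- a dense set of forces
      (∃ T : Set ℝ, Dense T ∧ ∀ h ∈ T, ∃ c C : ℝ, 0 < c ∧
        (∀ r : ℝ, |r| ≤ 1 → c * r ^ 2 ≤ lam (h + r) - lam h - r * deriv lam h ∧
          lam (h + r) - lam h - r * deriv lam h ≤ C * r ^ 2) ∧
        (∀ᶠ n : ℕ in atTop,
          c * (n * σ h n) ≤
            ∫ x, forceE β h (fun p => ω p x) n (fun s => |(walk s n : ℝ) - deriv lam h * n| ^ 2) ∂P ∧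
          ∫ x, forceE β h (fun p => ω p x) n (fun s => mx (deriv lam h) s ^ 2) ∂P ≤ C * (n * σ h n) ∧
          (n : ℝ) ^ (1 / 5 + c) ≤ σ h n ∧ σ h n ≤ (n : ℝ) ^ (1 / 2 - c)) ∧
        (∀ᶠ n : ℕ in atTop, ∀ R : ℝ, 1 ≤ R → 1 - ∫ x, forceP β h (fun p => ω p x) n
          (bal n (deriv lam h) (R * Real.sqrt (n * σ h n))) ∂P ≤ C * Real.exp (-(c * R ^ c))) ∧
        (∀ ε : ℝ, 0 < ε → ∃ a : ℝ, 0 < a ∧ ∀ᶠ n : ℕ in atTop, ∫ x, forceP β h (fun p => ω p x) n
          {s | |(walk s n : ℝ) - deriv lam h * n| ≤ a * Real.sqrt (n * σ h n)} ∂P ≤ ε) ∧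
        (∀ q : ℕ, ∃ a A : ℝ, 0 < a ∧ ∀ᶠ n : ℕ in atTop,
          a * Real.sqrt (n * σ h n) ^ q ≤
            ∫ x, forceE β h (fun p => ω p x) n (fun s => |(walk s n : ℝ) - deriv lam h * n| ^ q) ∂P ∧
          ∫ x, forceE β h (fun p => ω p x) n (fun s => mx (deriv lam h) s ^ q) ∂P ≤ A * Real.sqrt (n * σ h n) ^ q) ∧
        2 * nuH P β h (deriv lam h) ω - 1 = limsup (fun n : ℕ => Real.log (σ h n) / Real.log n) atTop ∧
        chiH P β h ω = liminf (fun n : ℕ => Real.log (σ h n) / Real.log n) atTop ∧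
        1 / 5 + c ≤ chiH P β h ω ∧ chiH P β h ω ≤ 2 * nuH P β h (deriv lam h) ω - 1 ∧
        nuH P β h (deriv lam h) ω ≤ 3 / 4 - c) ∧
      -- almost every force
      (∀ᵐ h : ℝ, ∃ c C : ℝ, 0 < c ∧
        (∀ᶠ n : ℕ in atTop, ∫ x, forceE β h (fun p => ω p x) n (fun s => mx (deriv lam h) s ^ 2) ∂P ≤ C * (n * σ h n)) ∧
        2 * nuH P β h (deriv lam h) ω - 1 ≤ limsup (fun n : ℕ => Real.log (σ h n) / Real.log n) atTop ∧
        1 / 5 + c ≤ chiH P β h ω ∧ nuH P β h (deriv lam h) ω ≤ 3 / 4 - c) ∧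
      -- almost every velocity
      (∀ᵐ v : ℝ, ∀ h : ℝ, deriv lam h = v → ∃ c : ℝ, 0 < c ∧
        (∀ᶠ n : ℕ in atTop, c * (n * σ h n) ≤
          ∫ x, forceE β h (fun p => ω p x) n (fun s => |(walk s n : ℝ) - v * n| ^ 2) ∂P) ∧
        chiH P β h ω ≤ 2 * nuH P β h v ω - 1 ∧ 3 / 5 + c ≤ nuH P β h v ω) := by
  obtain ⟨μ, hμdef⟩ : ∃ μ : Measure ℝ, μ = P.map fun x => β * ω (0, 0) x := ⟨_, rfl⟩
  have hm0 : Measurable fun x => β * ω (0, 0) x := (hmeas _).const_mul β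
  have hprob : IsProbabilityMeasure μ := by
    rw [hμdef]
    exact Measure.isProbabilityMeasure_map hm0.aemeasurable
  have hμ : EM μ := by
    rw [hμdef]
    exact EM_of (hmeas _) hexp β
  have hnd : Nondeg μ := by
    rw [hμdef]
    exact Nondeg_of (hmeas _) hnc hβ
  have hmpE := map_toEnv hmeas hindep hident β
  rw [← hμdef] at hmpE
  have hmp := mp_toF hmeas hindep hident β
  rw [← hμdef] at hmp
  have hI := hInp μ hμ hnd
  have hE := hEnd μ hμ hnd hmp
  -- the free energy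
  have hdl : ∀ h : ℝ, HasDerivAt (LamN μ) (vel μ h) h := fun h => (Lam_hasDeriv20 hμ hnd h).sub_const (Lam μ 0)
  have hdv : ∀ h : ℝ, deriv (LamN μ) h = vel μ h := fun h => (hdl h).deriv
  have hlim : ∀ h, ∀ᵐ x ∂P, Tendsto (fun n : ℕ => Real.log (endMGF β h (fun p => ω p x) n) / n) atTop (𝓝 (LamN μ h)) := by
    intro h
    filter_upwards [hmpE.quasiMeasurePreserving.ae (tendsto_logZ hμ h), hmpE.quasiMeasurePreserving.ae (tendsto_logZ hμ 0)]
      with x hx1 hx2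
    refine (hx1.sub hx2).congr fun n => ?_
    rw [log_endMGF, sub_div]
  obtain ⟨⟨T, hT, hTall⟩, hF, hV⟩ := kpz_P20 hμ hnd hI.dbl hI.inn
    (fun s => by
      obtain ⟨c, C, n₀, h1⟩ := hI.inn s
      exact vw_of h1 (hI.fac s))
    (σ := fun h => sgm P β h ω) (w := fun h => wd μ (2 * h))
    (fun h => by
      obtain ⟨c, C, n₀, h1⟩ := hI.inn (2 * h)
      exact ord_sgm20 h1 (hI.fac _) hmp)
  refine ⟨LamN μ, fun h => sgm P β h ω, fun h => (hdl h).differentiableAt, hlim, fun h n => rfl,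
    ⟨T, hT, fun h hh => ?_⟩, ?_, ?_⟩
  · -- the dense set
    obtain ⟨c, C, hc, hq, hev, hsup, hinf⟩ := hTall h hh
    obtain ⟨c₁, C₁, n₁, hi⟩ := hI.inn (2 * h)
    have f := hI.fac (2 * h)
    have hns : ∀ n : ℕ, 0 ≤ (n : ℝ) * sgm P β h ω n := fun n => mul_nonneg (Nat.cast_nonneg n) (Real.sqrt_nonneg _)
    have hk : ∀ᶠ n : ℕ in atTop, c * (n * sgm P β h ω n) ≤ wd μ (2 * h) n ^ 2 ∧
        wd μ (2 * h) n ^ 2 ≤ max C 1 * (n * sgm P β h ω n) := by
      filter_upwards [hev] with n h1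
      exact ⟨h1.1, h1.2.1.trans (mul_le_mul_of_nonneg_right (le_max_left _ _) (hns n))⟩
    have hC1 : 0 < max C 1 := lt_max_of_lt_right one_pos
    obtain ⟨k, K, hk0, htail, -, hmom⟩ := coreT20 (P := P) (β := β) (ω := ω) hi f hmeas hmp hc hC1 hk
    have hend : End20 P β h (vel μ h) ω fun n => Real.sqrt (n * sgm P β h ω n) := by
      obtain ⟨b, B, hb, hB, N, -, hN⟩ := cmp_sqrt20 (P := P) (β := β) (ω := ω) hi hc hC1 hk
      exact (hE h).of_le hmeas hB (eventually_atTop.2 ⟨N, fun n hn => (hN n hn).2.1⟩)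
    have hem := fun q => hend.mom hmeas (Eventually.of_forall fun n => Real.sqrt_nonneg _) q
    obtain ⟨e₁, he₁, hlo⟩ := sgm_low20 (P := P) (β := β) (ω := ω) hi f (hI.np _) hmp hC1 (hk.mono fun n h1 => h1.2)
    obtain ⟨e₂, he₂, hup⟩ := sgm_up20 (P := P) (β := β) (ω := ω) f (hI.sc _) hmp
    obtain ⟨a₂, ha₂, hm2⟩ := hem 2
    obtain ⟨a₃, A₂, _, hM2⟩ := hmom 2
    have hbσ := bd_sgm20 (P := P) (β := β) (ω := ω) hi f hmp
    have hbw := bd_wd20 hi
    have hnu := nuS (P := P) (β := β) (ω := ω) f hmeas hmp (cmp_wd20 hi) hbw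
    have hchi : chiH P β h ω = liminf (lg20 (sgm P β h ω)) atTop := chiS hbσ
    have hnu2 : 2 * nuH P β h (vel μ h) ω - 1 = limsup (lg20 (sgm P β h ω)) atTop := by
      rw [hnu]
      exact hsup.symm
    have hl1 := low20 hbσ (c := 1) one_pos (hlo.mono fun n h1 => by rw [one_mul]; exact h1)
    have hl2 := up20 hbσ (C := 1) one_pos (hup.mono fun n h1 => by rw [one_mul]; exact h1)
    have hl3 := inf_le_sup20 hbσ
    obtain ⟨e, he⟩ : ∃ e : ℝ, e = min (min (min c a₂) (min e₁ (e₂ / 2))) (min 1 k) := ⟨_, rfl⟩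
    have he0 : 0 < e := by rw [he]; positivity
    have hex1 : e ≤ min (min c a₂) (min e₁ (e₂ / 2)) := by rw [he]; exact min_le_left _ _
    have hex2 : e ≤ min 1 k := by rw [he]; exact min_le_right _ _
    have hec : e ≤ c := hex1.trans ((min_le_left _ _).trans (min_le_left _ _))
    have hea : e ≤ a₂ := hex1.trans ((min_le_left _ _).trans (min_le_right _ _))
    have hee1 : e ≤ e₁ := hex1.trans ((min_le_right _ _).trans (min_le_left _ _))
    have hee2 : e ≤ e₂ / 2 := hex1.trans ((min_le_right _ _).trans (min_le_right _ _))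
    have he1 : e ≤ 1 := hex2.trans (min_le_left _ _)
    have hek : e ≤ k := hex2.trans (min_le_right _ _)
    obtain ⟨D, hD⟩ : ∃ D : ℝ, D = max (max C A₂) (3 * |K|) := ⟨_, rfl⟩
    have hDC : C ≤ D := by rw [hD]; exact (le_max_left _ _).trans (le_max_left _ _)
    have hDA : A₂ ≤ D := by rw [hD]; exact (le_max_right _ _).trans (le_max_left _ _)
    have hDK : 3 * |K| ≤ D := by rw [hD]; exact le_max_right _ _
    simp only [hdv h]
    refine ⟨e, D, he0, fun r hr => ?_, ?_, ?_, hend, fun q => ?_, hnu2, hchi, ?_, ?_, ?_⟩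
    · have h1 := hq r hr
      have h2 : LamN μ (h + r) - LamN μ h - r * vel μ h = Lam μ (h + r) - Lam μ h - r * vel μ h := by
        unfold LamN
        ring
      rw [h2]
      exact ⟨(mul_le_mul_of_nonneg_right hec (sq_nonneg r)).trans h1.1,
        h1.2.trans (mul_le_mul_of_nonneg_right hDC (sq_nonneg r))⟩
    · filter_upwards [hm2, hM2, hlo, hup, eventually_ge_atTop 1] with n g1 g2 g3 g4 g5
      have hn1 : (1 : ℝ) ≤ n := by exact_mod_cast g5
      rw [Real.sq_sqrt (hns n)] at g1 g2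
      exact ⟨(mul_le_mul_of_nonneg_right hea (hns n)).trans g1, g2.2.trans (mul_le_mul_of_nonneg_right hDA (hns n)),
        (Real.rpow_le_rpow_of_exponent_le hn1 (by linarith)).trans g3,
        g4.trans (Real.rpow_le_rpow_of_exponent_le hn1 (by linarith))⟩
    · filter_upwards [htail] with n g1 R hR
      exact (g1 R hR).trans (tail_le20 hek hek he0 he1 hDK (by linarith))
    · obtain ⟨a, ha, g1⟩ := hem q
      obtain ⟨a₃, A, _, g2⟩ := hmom q
      refine ⟨a, A, ha, ?_⟩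
      filter_upwards [g1, g2] with n g3 g4
      exact ⟨g3, g4.2⟩
    · rw [hchi]
      linarith
    · rw [hchi, hnu2]
      exact hl3
    · linarith
  · -- almost every force
    filter_upwards [hF] with h hh
    obtain ⟨c, C, hc, hev⟩ := hh
    obtain ⟨c₁, C₁, n₁, hi⟩ := hI.inn (2 * h)
    have f := hI.fac (2 * h)
    have hns : ∀ n : ℕ, 0 ≤ (n : ℝ) * sgm P β h ω n := fun n => mul_nonneg (Nat.cast_nonneg n) (Real.sqrt_nonneg _)
    have hC1 : 0 < max C 1 := lt_max_of_lt_right one_pos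
    have hk : ∀ᶠ n : ℕ in atTop, wd μ (2 * h) n ^ 2 ≤ max C 1 * (n * sgm P β h ω n) := by
      filter_upwards [hev] with n h1
      exact h1.1.trans (mul_le_mul_of_nonneg_right (le_max_left _ _) (hns n))
    obtain ⟨e₁, he₁, hlo⟩ := sgm_low20 (P := P) (β := β) (ω := ω) hi f (hI.np _) hmp hC1 hk
    obtain ⟨e₂, he₂, hup⟩ := sgm_up20 (P := P) (β := β) (ω := ω) f (hI.sc _) hmp
    obtain ⟨b₂, B₂, hb₂, hB₂, N, hN⟩ := maxS (P := P) (β := β) (ω := ω) f hmeas hmp (cmp_wd20 hi) 2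
    have hbσ := bd_sgm20 (P := P) (β := β) (ω := ω) hi f hmp
    have hbw := bd_wd20 hi
    have hnu := nuS (P := P) (β := β) (ω := ω) f hmeas hmp (cmp_wd20 hi) hbw
    have hchi : chiH P β h ω = liminf (lg20 (sgm P β h ω)) atTop := chiS hbσ
    have hrel := rel_up20 hbσ hbw hC1 hk
    have hl1 := low20 hbσ (c := 1) one_pos (hlo.mono fun n h1 => by rw [one_mul]; exact h1)
    have hl2 := up20 hbσ (C := 1) one_pos (hup.mono fun n h1 => by rw [one_mul]; exact h1)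
    have hnu' : nuH P β h (vel μ h) ω = limsup (lg20 (wd μ (2 * h))) atTop := hnu
    rw [hdv h]
    refine ⟨min e₁ (e₂ / 2), B₂ * max C 1, by positivity, ?_, ?_, ?_, ?_⟩
    · filter_upwards [hk, eventually_ge_atTop N] with n g1 g2
      refine (hN n g2).2.trans ?_
      calc B₂ * wd μ (2 * h) n ^ 2 ≤ B₂ * (max C 1 * (n * sgm P β h ω n)) := mul_le_mul_of_nonneg_left g1 hB₂.le
        _ = B₂ * max C 1 * (n * sgm P β h ω n) := by ring
    · rw [hnu']
      exact hrel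
    · rw [hchi]
      have := min_le_left e₁ (e₂ / 2)
      linarith
    · rw [hnu']
      have := min_le_right e₁ (e₂ / 2)
      linarith
  · -- almost every velocity
    filter_upwards [hV] with v hv h hh
    rw [hdv h] at hh
    obtain ⟨c, hc, hev⟩ := hv h hh
    obtain ⟨c₁, C₁, n₁, hi⟩ := hI.inn (2 * h)
    have f := hI.fac (2 * h)
    have hns : ∀ n : ℕ, 0 ≤ (n : ℝ) * sgm P β h ω n := fun n => mul_nonneg (Nat.cast_nonneg n) (Real.sqrt_nonneg _)
    have hk : ∀ᶠ n : ℕ in atTop, c * (n * sgm P β h ω n) ≤ wd μ (2 * h) n ^ 2 := hev.mono fun n h1 => h1.1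
    obtain ⟨e₁, he₁, hlo⟩ := wd_low20 (P := P) (β := β) (ω := ω) hi f (hI.np _) hmp hc hk
    obtain ⟨a₂, ha₂, hm2⟩ := (hE h).mom hmeas ((wd_large20 hi 0).mono fun n h1 => h1) 2
    have hbσ := bd_sgm20 (P := P) (β := β) (ω := ω) hi f hmp
    have hbw := bd_wd20 hi
    have hnu := nuS (P := P) (β := β) (ω := ω) f hmeas hmp (cmp_wd20 hi) hbw
    have hchi : chiH P β h ω = liminf (lg20 (sgm P β h ω)) atTop := chiS hbσ
    have hnu' : nuH P β h (vel μ h) ω = limsup (lg20 (wd μ (2 * h))) atTop := hnu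
    have hrel := rel_low20 hbσ hbw hc hk
    have hl1 := low20 hbw (c := 1) one_pos (hlo.mono fun n h1 => by rw [one_mul]; exact h1)
    have hl3 := inf_le_sup20 hbσ
    have hl4 := inf_le_sup20 hbw
    rw [← hh]
    refine ⟨min e₁ (a₂ * c), by positivity, ?_, ?_, ?_⟩
    · filter_upwards [hm2, hk] with n g1 g2
      refine le_trans ?_ g1
      calc min e₁ (a₂ * c) * (n * sgm P β h ω n) ≤ a₂ * c * (n * sgm P β h ω n) :=
            mul_le_mul_of_nonneg_right (min_le_right _ _) (hns n)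
        _ = a₂ * (c * (n * sgm P β h ω n)) := by ring
        _ ≤ a₂ * wd μ (2 * h) n ^ 2 := mul_le_mul_of_nonneg_left g2 ha₂.le
    · rw [hchi, hnu']
      linarith
    · rw [hnu']
      have := min_le_left e₁ (a₂ * c)
      linarith

end Pool.Agent.W_7d29a1_HK20
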