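import Pool.Agent.W_7d29a1_SR.NuChi

/-!
MP_7d29a1_pr, KPZRelation (helper20): exponents of sequences (pure).
-/

set_option autoImplicit false

namespace Pool.Agent.W_7d29a1_HK20

open Filter Topology
open Pool.Agent.W_7d29a1_SR (logw_bdd logw_mem)

/-- The exponent of a sequence along the integers. -/
noncomputable def lg20 (w : ℕ → ℝ) (n : ℕ) : ℝ := Real.log (w n) / Real.log n

/-- The sequence is between `1` and `n`. -/
def Bd20 (w : ℕ → ℝ) : Prop := ∀ᶠ n : ℕ in atTop, 1 ≤ w n ∧ w n ≤ n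

theorem Bd20.bdd {w : ℕ → ℝ} (h : Bd20 w) : IsBoundedUnder (· ≤ ·) atTop (lg20 w) ∧ IsBoundedUnder (· ≥ ·) atTop (lg20 w) := by
  obtain ⟨N, hN⟩ := eventually_atTop.1 h
  exact logw_bdd (fun n hn => (hN n hn).1) fun n hn => (hN n hn).2

theorem log_ev20 (K : ℝ) : ∀ᶠ n : ℕ in atTop, K ≤ Real.log n :=
  (Real.tendsto_log_atTop.comp tendsto_natCast_atTop_atTop).eventually_ge_atTop K

/-- Constants do not matter. -/
theorem log_const20 (K : ℝ) {ε : ℝ} (hε : 0 < ε) : ∀ᶠ n : ℕ in atTop, (2 : ℝ) ≤ n ∧ 0 < Real.log n ∧ |K| ≤ ε * Real.log n := by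
  filter_upwards [log_ev20 (|K| / ε), eventually_ge_atTop 2] with n h1 h2
  have h3 : (2 : ℝ) ≤ n := by exact_mod_cast h2
  refine ⟨h3, Real.log_pos (by linarith), ?_⟩
  rw [div_le_iff₀ hε] at h1
  linarith

theorem low20 {w : ℕ → ℝ} (hw : Bd20 w) {c b : ℝ} (hc : 0 < c) (h : ∀ᶠ n : ℕ in atTop, c * (n : ℝ) ^ b ≤ w n) :
    b ≤ liminf (lg20 w) atTop := by
  obtain ⟨hb1, hb2⟩ := hw.bdd
  refine le_of_forall_pos_le_add fun ε hε => ?_
  rw [← sub_le_iff_le_add]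
  refine le_liminf_of_le hb1.isCoboundedUnder_ge ?_
  filter_upwards [h, log_const20 (Real.log c) hε] with n h1 ⟨h2, h3, h4⟩
  have hn0 : (0 : ℝ) < n := by linarith
  have h5 := Real.log_le_log (by positivity) h1
  rw [Real.log_mul hc.ne' (by positivity), Real.log_rpow hn0] at h5
  unfold lg20
  rw [le_div_iff₀ h3]
  have := neg_abs_le (Real.log c)
  linarith

theorem up20 {w : ℕ → ℝ} (hw : Bd20 w) {C B : ℝ} (hC : 0 < C) (h : ∀ᶠ n : ℕ in atTop, w n ≤ C * (n : ℝ) ^ B) :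
    limsup (lg20 w) atTop ≤ B := by
  obtain ⟨hb1, hb2⟩ := hw.bdd
  refine le_of_forall_pos_le_add fun ε hε => ?_
  refine limsup_le_of_le hb2.isCoboundedUnder_le ?_
  filter_upwards [h, hw, log_const20 (Real.log C) hε] with n h1 hwn ⟨h2, h3, h4⟩
  have hn0 : (0 : ℝ) < n := by linarith
  have h5 := Real.log_le_log (by linarith [hwn.1]) h1
  rw [Real.log_mul hC.ne' (by positivity), Real.log_rpow hn0] at h5
  unfold lg20
  rw [div_le_iff₀ h3]
  have := le_abs_self (Real.log C)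
  linarith

theorem inf_le_sup20 {w : ℕ → ℝ} (hw : Bd20 w) : liminf (lg20 w) atTop ≤ limsup (lg20 w) atTop :=
  liminf_le_limsup hw.bdd.1 hw.bdd.2

/-- `w ^ 2 ≤ C n σ` gives `2 ν - 1 ≤ limsup`. -/
theorem rel_up20 {σ w : ℕ → ℝ} (hσ : Bd20 σ) (hw : Bd20 w) {C : ℝ} (hC : 0 < C)
    (h : ∀ᶠ n : ℕ in atTop, w n ^ 2 ≤ C * (n * σ n)) : 2 * limsup (lg20 w) atTop - 1 ≤ limsup (lg20 σ) atTop := by
  obtain ⟨a1, a2⟩ := hσ.bdd
  obtain ⟨b1, b2⟩ := hw.bdd
  refine le_of_forall_pos_le_add fun ε hε => ?_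
  have hf : ∃ᶠ n in atTop, limsup (lg20 w) atTop - ε / 4 < lg20 w n :=
    frequently_lt_of_lt_limsup b2.isCoboundedUnder_le (by linarith)
  have he : ∀ᶠ n in atTop, lg20 σ n < limsup (lg20 σ) atTop + ε / 4 := eventually_lt_of_limsup_lt (by linarith) a1
  obtain ⟨n, h1, h2, h3, hs, hwn, h4, h5, h6⟩ :=
    (hf.and_eventually (he.and (h.and (hσ.and (hw.and (log_const20 (Real.log C) (show 0 < ε / 4 by positivity))))))).exists
  have hn0 : (0 : ℝ) < n := by linarith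
  have hsp : 0 < σ n := by linarith [hs.1]
  have hwp : 0 < w n := by linarith [hwn.1]
  have h7 := Real.log_le_log (by positivity) h3
  rw [Real.log_pow, Real.log_mul hC.ne' (by positivity), Real.log_mul hn0.ne' hsp.ne'] at h7
  push_cast at h7
  unfold lg20 at h1 h2
  rw [lt_div_iff₀ h5] at h1
  rw [div_lt_iff₀ h5] at h2
  have h8 := le_abs_self (Real.log C)
  have h9 : (2 * limsup (lg20 w) atTop - 1) * Real.log n ≤ (limsup (lg20 σ) atTop + ε) * Real.log n := by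
    unfold lg20
    linarith
  exact le_of_mul_le_mul_right h9 h5

/-- `c n σ ≤ w ^ 2` gives `limsup ≤ 2 ν - 1`. -/
theorem rel_low20 {σ w : ℕ → ℝ} (hσ : Bd20 σ) (hw : Bd20 w) {c : ℝ} (hc : 0 < c)
    (h : ∀ᶠ n : ℕ in atTop, c * (n * σ n) ≤ w n ^ 2) : limsup (lg20 σ) atTop ≤ 2 * limsup (lg20 w) atTop - 1 := by
  obtain ⟨a1, a2⟩ := hσ.bdd
  obtain ⟨b1, b2⟩ := hw.bdd
  refine le_of_forall_pos_le_add fun ε hε => ?_
  have hf : ∃ᶠ n in atTop, limsup (lg20 σ) atTop - ε / 4 < lg20 σ n :=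
    frequently_lt_of_lt_limsup a2.isCoboundedUnder_le (by linarith)
  have he : ∀ᶠ n in atTop, lg20 w n < limsup (lg20 w) atTop + ε / 4 := eventually_lt_of_limsup_lt (by linarith) b1
  obtain ⟨n, h1, h2, h3, hs, hwn, h4, h5, h6⟩ :=
    (hf.and_eventually (he.and (h.and (hσ.and (hw.and (log_const20 (Real.log c) (show 0 < ε / 4 by positivity))))))).exists
  have hn0 : (0 : ℝ) < n := by linarith
  have hsp : 0 < σ n := by linarith [hs.1]
  have hwp : 0 < w n := by linarith [hwn.1]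
  have h7 := Real.log_le_log (by positivity) h3
  rw [Real.log_pow, Real.log_mul hc.ne' (by positivity), Real.log_mul hn0.ne' hsp.ne'] at h7
  push_cast at h7
  unfold lg20 at h1 h2
  rw [lt_div_iff₀ h5] at h1
  rw [div_lt_iff₀ h5] at h2
  have h8 := neg_abs_le (Real.log c)
  have h9 : limsup (lg20 σ) atTop * Real.log n ≤ (2 * limsup (lg20 w) atTop - 1 + ε) * Real.log n := by
    unfold lg20
    linarith
  exact le_of_mul_le_mul_right h9 h5

end Pool.Agent.W_7d29a1_HK20
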