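import Pool.Agent.W_7d29a1_HK20.FinS
import Pool.Agent.W_7d29a1_HK20.ExpK20
import Pool.Agent.W_7d29a1_HS.KPZ20

/-!
MP_7d29a1_pr, KPZRelation (helper20): the polymer at one force `h`, with the width `√(n σ_n)`.
-/

set_option autoImplicit false

namespace Pool.Agent.W_7d29a1_HK20

open MeasureTheory ProbabilityTheory Filter Topology
open Pool.Agent.W_7d29a1_F Pool.Agent.W_7d29a1_h4g Pool.Agent.W_7d29a1_H Pool.Agent.W_7d29a1_HS
open Pool.Agent.W_7d29a1_h47 (Lam walk energy endMGF forceP forceE)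
open Pool.Agent.W_7d29a1_SR (toF)

section law

variable {μ : Measure ℝ} [IsProbabilityMeasure μ] {s c C : ℝ} {n₀ : ℕ}

/-- The unit tends to infinity. -/
theorem EE_large20 (h : In μ s c C n₀) (K : ℝ) : ∀ᶠ n : ℕ in atTop, K ≤ EE μ s n := by
  obtain ⟨b, k, hb, hk, h1⟩ := EE_pow h
  have h2 : Tendsto (fun n : ℕ => k * (n : ℝ) ^ b) atTop atTop :=
    Tendsto.const_mul_atTop hk ((tendsto_rpow_atTop hb).comp tendsto_natCast_atTop_atTop)
  filter_upwards [h2.eventually_ge_atTop K, eventually_ge_atTop 1] with n h3 h4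
  exact h3.trans (h1 n h4)

/-- The width tends to infinity. -/
theorem wd_large20 (h : In μ s c C n₀) (K : ℝ) : ∀ᶠ n : ℕ in atTop, K ≤ wd μ s n := by
  obtain ⟨n₂, hg⟩ := wd_growth h
  obtain ⟨m, hm⟩ : ∃ m : ℕ, m = max n₂ 1 := ⟨_, rfl⟩
  have hm1 : 1 ≤ m := by rw [hm]; exact le_max_right _ _
  have hm2 : n₂ ≤ m := by rw [hm]; exact le_max_left _ _
  have hw := wd_pos96 h hm1
  have hE := EE_pos (μ := μ) (s := s) m
  filter_upwards [EE_large20 h (K * (2 * EE μ s m) / wd μ s m), eventually_ge_atTop m] with n h1 h2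
  have h3 := hg m n hm2 h2
  rw [div_le_iff₀ hw] at h1
  have h4 : 0 < 2 * EE μ s m := by positivity
  refine le_of_mul_le_mul_right ?_ h4
  linarith

omit [IsProbabilityMeasure μ] in
/-- The width is at most `n`. -/
theorem wd_le20 (h : In μ s c C n₀) : ∀ᶠ n : ℕ in atTop, wd μ s n ≤ n := by
  filter_upwards [h.tv.eventually (Iio_mem_nhds (show (0 : ℝ) < 1 from one_pos))] with n h1
  have hn : (0 : ℝ) ≤ n := Nat.cast_nonneg n
  calc wd μ s n = n * vA 1 μ s n := rfl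
    _ ≤ n * 1 := mul_le_mul_of_nonneg_left h1.le hn
    _ = n := mul_one _

/-- The unit is at most `n` up to any constant. -/
theorem EE_le20 (h : In μ s c C n₀) {K : ℝ} (hK : 0 < K) : ∀ᶠ n : ℕ in atTop, K * EE μ s n ≤ n := by
  obtain ⟨A, hA, n₁, h1⟩ := EE_half96 h
  have h2 : Tendsto (fun n : ℕ => (n : ℝ) ^ (1 / 2 : ℝ)) atTop atTop :=
    (tendsto_rpow_atTop (by norm_num)).comp tendsto_natCast_atTop_atTop
  filter_upwards [h2.eventually_ge_atTop (K * A), eventually_ge_atTop n₁, eventually_ge_atTop 1] with n h3 h4 h5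
  have hn : (0 : ℝ) < n := by exact_mod_cast h5
  have h6 := h1 n h4
  have h7 : (0 : ℝ) ≤ (n : ℝ) ^ (1 / 2 : ℝ) := by positivity
  calc K * EE μ s n ≤ K * (A * (n : ℝ) ^ (1 / 2 : ℝ)) := mul_le_mul_of_nonneg_left h6 hK.le
    _ = K * A * (n : ℝ) ^ (1 / 2 : ℝ) := by ring
    _ ≤ (n : ℝ) ^ (1 / 2 : ℝ) * (n : ℝ) ^ (1 / 2 : ℝ) := mul_le_mul_of_nonneg_right h3 h7
    _ = n := by
      rw [← Real.rpow_add hn]
      norm_num

end law

variable {Ω : Type*} [MeasurableSpace Ω] {P : Measure Ω} [IsProbabilityMeasure P] {ω : ℕ × ℤ → Ω → ℝ} {β h : ℝ}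
  {μ : Measure ℝ} [IsProbabilityMeasure μ] {c C : ℝ} {n₀ : ℕ}

/-- The standard deviation and the width are between `1` and `n`. -/
theorem bd_sgm20 (hI : In μ (2 * h) c C n₀) (f : Fac μ (2 * h))
    (hmp : MeasurePreserving (fun x => toF β fun p => ω p x) P (law μ)) : Bd20 (sgm P β h ω) := by
  obtain ⟨a, A, ha, hA, h1⟩ := sgmS (P := P) (β := β) (ω := ω) f hmp
  filter_upwards [EE_large20 hI (1 / a), EE_le20 hI hA, eventually_ge_atTop 1] with n h2 h3 h4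
  obtain ⟨h5, h6⟩ := h1 n h4
  rw [div_le_iff₀ ha] at h2
  exact ⟨by linarith, h6.trans h3⟩

theorem bd_wd20 (hI : In μ (2 * h) c C n₀) : Bd20 (wd μ (2 * h)) := by
  filter_upwards [wd_large20 hI 1, wd_le20 hI] with n h2 h3
  exact ⟨h2, h3⟩

/-- The width itself. -/
theorem cmp_wd20 (hI : In μ (2 * h) c C n₀) : Cmp20 μ (2 * h) (wd μ (2 * h)) := by
  obtain ⟨N, hN⟩ := eventually_atTop.1 (wd_large20 hI 1)
  refine ⟨1, 1, one_pos, one_pos, max N 1, le_max_right _ _, fun n hn => ?_⟩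
  rw [one_mul]
  exact ⟨le_rfl, le_rfl, hN n ((le_max_left _ _).trans hn)⟩

omit [IsProbabilityMeasure P] in
/-- The width `√(n σ_n)`. -/
theorem cmp_sqrt20 (hI : In μ (2 * h) c C n₀) {b B : ℝ} (hb : 0 < b) (hB : 0 < B)
    (hk : ∀ᶠ n : ℕ in atTop, b * (n * sgm P β h ω n) ≤ wd μ (2 * h) n ^ 2 ∧ wd μ (2 * h) n ^ 2 ≤ B * (n * sgm P β h ω n)) :
    Cmp20 μ (2 * h) fun n => Real.sqrt (n * sgm P β h ω n) := by
  obtain ⟨N, hN⟩ := eventually_atTop.1 (hk.and (wd_large20 hI 1))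
  refine ⟨1 / Real.sqrt B, 1 / Real.sqrt b, by positivity, by positivity, max N 1, le_max_right _ _, fun n hn => ?_⟩
  obtain ⟨⟨h1, h2⟩, h3⟩ := hN n ((le_max_left _ _).trans hn)
  have hs : 0 ≤ (n : ℝ) * sgm P β h ω n := mul_nonneg (Nat.cast_nonneg n) (Real.sqrt_nonneg _)
  have hw : 0 ≤ wd μ (2 * h) n := by linarith
  refine ⟨?_, ?_, h3⟩
  · rw [one_div, inv_mul_le_iff₀ (Real.sqrt_pos.2 hB), ← Real.sqrt_mul hB.le]
    exact Real.le_sqrt_of_sq_le h2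
  · rw [one_div, ← div_eq_inv_mul, le_div_iff₀ (Real.sqrt_pos.2 hb), ← Real.sqrt_mul hs, Real.sqrt_le_left hw]
    linarith

/-- **The path at a force with `w ^ 2 ~ n σ`.** -/
theorem coreT20 (hI : In μ (2 * h) c C n₀) (f : Fac μ (2 * h)) (hmeas : ∀ p, Measurable (ω p))
    (hmp : MeasurePreserving (fun x => toF β fun p => ω p x) P (law μ)) {b B : ℝ} (hb : 0 < b) (hB : 0 < B)
    (hk : ∀ᶠ n : ℕ in atTop, b * (n * sgm P β h ω n) ≤ wd μ (2 * h) n ^ 2 ∧ wd μ (2 * h) n ^ 2 ≤ B * (n * sgm P β h ω n)) :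
    ∃ k K : ℝ, 0 < k ∧
      (∀ᶠ n : ℕ in atTop, ∀ R : ℝ, 1 ≤ R → 1 - ∫ x, forceP β h (fun p => ω p x) n
        (bal n (vel μ h) (R * Real.sqrt (n * sgm P β h ω n))) ∂P ≤ K * Real.exp (-(k * R ^ k))) ∧
      (∀ ε : ℝ, 0 < ε → ∃ a : ℝ, 0 < a ∧ ∀ᶠ n : ℕ in atTop, ∫ x, forceP β h (fun p => ω p x) n
        (bal n (vel μ h) (a * Real.sqrt (n * sgm P β h ω n))) ∂P ≤ ε) ∧
      (∀ q : ℕ, ∃ a A : ℝ, 0 < a ∧ ∀ᶠ n : ℕ in atTop,
        a * Real.sqrt (n * sgm P β h ω n) ^ q ≤ ∫ x, forceE β h (fun p => ω p x) n (fun s => mx (vel μ h) s ^ q) ∂P ∧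
        ∫ x, forceE β h (fun p => ω p x) n (fun s => mx (vel μ h) s ^ q) ∂P ≤ A * Real.sqrt (n * sgm P β h ω n) ^ q) := by
  have hw := cmp_sqrt20 hI hb hB hk
  obtain ⟨A, a, g, ha, hg, n₁, hex⟩ := exitS_P (P := P) (β := β) (ω := ω) f hmeas hmp hw
  obtain ⟨k, hk'⟩ : ∃ k : ℝ, k = min 1 (min a g) := ⟨_, rfl⟩
  have k0 : 0 < k := by rw [hk']; positivity
  have k1 : k ≤ 1 := by rw [hk']; exact min_le_left _ _
  have ka : k ≤ a := by rw [hk']; exact (min_le_right _ _).trans (min_le_left _ _)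
  have kg : k ≤ g := by rw [hk']; exact (min_le_right _ _).trans (min_le_right _ _)
  refine ⟨k, 3 * |A|, k0, eventually_atTop.2 ⟨n₁, fun n hn R hR => ?_⟩, fun ε hε => ?_, fun q => ?_⟩
  · exact (hex n hn R hR).trans (tail_le20 ka kg k0 k1 le_rfl (by linarith))
  · obtain ⟨a', ha', n₂, h2⟩ := tightS_P (P := P) (β := β) (ω := ω) f hmeas hmp hw hε
    exact ⟨a', ha', eventually_atTop.2 ⟨n₂, h2⟩⟩
  · obtain ⟨b', B', hb', hB', n₂, h2⟩ := maxS (P := P) (β := β) (ω := ω) f hmeas hmp hw q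
    exact ⟨b', B', hb', eventually_atTop.2 ⟨n₂, h2⟩⟩

/-- The orders in the form of `KPZ20.lean`. -/
theorem ord_sgm20 (hI : In μ (2 * h) c C n₀) (f : Fac μ (2 * h)) (hmp : MeasurePreserving (fun x => toF β fun p => ω p x) P (law μ)) :
    ∃ (a A : ℝ) (n₂ : ℕ), Ord20 μ h (sgm P β h ω) (wd μ (2 * h)) a A n₂ := by
  obtain ⟨a, A, ha, hA, h1⟩ := sgmS (P := P) (β := β) (ω := ω) f hmp
  refine ⟨min a 1, max A 1, 1, lt_min ha one_pos, lt_max_of_lt_left hA, fun n hn => ?_, fun n _ => ?_⟩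
  · obtain ⟨h2, h3⟩ := h1 n hn
    have hE := (EE_pos (μ := μ) (s := 2 * h) n).le
    exact ⟨(mul_le_mul_of_nonneg_right (min_le_left _ _) hE).trans h2,
      h3.trans (mul_le_mul_of_nonneg_right (le_max_left _ _) hE)⟩
  · have hw := hI.wd_nonneg n
    exact ⟨by nlinarith [min_le_right a 1], by nlinarith [le_max_right A 1]⟩

end Pool.Agent.W_7d29a1_HK20
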