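import Pool.Agent.W_7d29a1_HS.Scale
import Pool.Agent.W_7d29a1_HS.Lucky
import Pool.Agent.W_7d29a1_HS.Width
import Pool.Agent.W_7d29a1_HS.VarA
import Pool.Agent.W_7d29a1_HS.KPZ

/-!
MP_7d29a1_pr, TRACK H, part 3, section (h): the scales at one tilt `s`. The case `s = 0` is `W_7d29a1_SR.CoreS`. (helper20)

`Fac μ s` collects the results of the other sections which the final theorems use (moments, tails, exits, tightness, lower
bound of the variance), so that the files `CoreS`, `MidS`, `FinS` depend on no other section.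
-/

set_option autoImplicit false

namespace Pool.Agent.W_7d29a1_HK20

open MeasureTheory ProbabilityTheory Filter Topology
open Pool.Agent.W_7d29a1_F Pool.Agent.W_7d29a1_h4g Pool.Agent.W_7d29a1_H Pool.Agent.W_7d29a1_HS

/-- The facts on the polymer at the tilt `s` (law of the environment). -/
structure Fac (μ : Measure ℝ) (s : ℝ) : Prop where
  /-- `mean_VE`. -/
  mean : ∀ n : ℕ, -EE μ s n ≤ ∫ η, V μ s η 0 n ∂(law μ) ∧ ∫ η, V μ s η 0 n ∂(law μ) ≤ 0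
  /-- `moments` for `q = 2`. -/
  mom : ∃ A : ℝ, ∀ n : ℕ, 1 ≤ n →
    Integrable (fun η => |V μ s η 0 n| ^ 2) (law μ) ∧ ∫ η, |V μ s η 0 n| ^ 2 ∂(law μ) ≤ A * EE μ s n ^ 2
  /-- `dev_V_exp`. -/
  dev : ∃ A a g : ℝ, 0 < a ∧ 0 < g ∧ g ≤ 1 ∧ ∀ n : ℕ, 1 ≤ n → ∀ u : ℝ, 0 ≤ u →
    (law μ).real {η | u * EE μ s n ≤ |V μ s η 0 n - ∫ ξ, V μ s ξ 0 n ∂(law μ)|} ≤ A * Real.exp (-(a * u ^ g))
  /-- `lucky`. -/
  luck : ∀ K : ℝ, ∃ p : ℝ, 0 < p ∧ ∃ n₁ : ℕ, ∀ n, n₁ ≤ n → p ≤ (law μ).real {η | K * EE μ s n ≤ V μ s η 0 n}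
  /-- `var_ge`. -/
  var : ∃ a : ℝ, 0 < a ∧ ∀ n : ℕ, 1 ≤ n → a * EE μ s n ^ 2 ≤ Var[fun η => V μ s η 0 n; law μ]
  /-- `exitE`. -/
  exit : ∃ A a g c' : ℝ, 0 < a ∧ 0 < g ∧ g ≤ 1 ∧ 0 < c' ∧ ∃ n₁ : ℕ, ∀ n, n₁ ≤ n → ∀ R : ℝ, 1 ≤ R →
    (law μ).real {η | Real.exp (-(c' * R * EE μ s n)) * Real.exp (V μ s η 0 n) ≤
      Real.exp (V μ s η 0 n) - cf μ s (R * wd μ s n) η 0 n} ≤ A * Real.exp (-(a * R ^ g))
  /-- `tight`. -/
  tight : ∀ ε : ℝ, 0 < ε → ∃ c' : ℝ, 0 < c' ∧ ∃ n₁ : ℕ, ∀ n, n₁ ≤ n →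
    ∫ η, cf μ s (c' * wd μ s n) η 0 n / Real.exp (V μ s η 0 n) ∂(law μ) ≤ ε
  /-- `var_ge_w`. -/
  varw : ∃ a : ℝ, 0 < a ∧ ∃ n₁ : ℕ, ∀ n, n₁ ≤ n → a * n ≤ wd μ s n * Var[fun η => V μ s η 0 n; law μ]

variable {μ : Measure ℝ} [IsProbabilityMeasure μ] {s c C : ℝ} {n₀ : ℕ}

/-- The standard deviation of the luck. -/
noncomputable def sV (μ : Measure ℝ) (s : ℝ) (n : ℕ) : ℝ := Real.sqrt (Var[fun η => V μ s η 0 n; law μ])

/-- `σ_n` is of the order of the unit. -/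
theorem sV_EE (f : Fac μ s) : ∃ a A : ℝ, 0 < a ∧ 0 < A ∧ ∀ n : ℕ, 1 ≤ n →
    a * EE μ s n ≤ sV μ s n ∧ sV μ s n ≤ A * EE μ s n := by
  obtain ⟨a, ha, h1⟩ := f.var
  obtain ⟨A, h2⟩ := f.mom
  refine ⟨Real.sqrt a, Real.sqrt (|A| + 1), Real.sqrt_pos.2 ha, Real.sqrt_pos.2 (by positivity), fun n hn => ?_⟩
  have hE := one_le_EE (μ := μ) (s := s) n
  have hE0 : 0 ≤ EE μ s n := by linarith
  constructor
  · rw [sV, Real.le_sqrt' (by have := Real.sqrt_pos.2 ha; positivity), mul_pow, Real.sq_sqrt ha.le]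
    exact h1 n hn
  · rw [sV, Real.sqrt_le_left (by positivity), mul_pow, Real.sq_sqrt (by positivity)]
    obtain ⟨i2, m2⟩ := h2 n hn
    have hm : AEStronglyMeasurable (fun η => V μ s η 0 n) (law μ) := (measurable_V 0 n).aestronglyMeasurable
    refine (variance_le_expectation_sq hm).trans ?_
    have e : ∫ η, V μ s η 0 n ^ 2 ∂(law μ) = ∫ η, |V μ s η 0 n| ^ 2 ∂(law μ) := by simp
    have e' : (fun η => V μ s η 0 n) ^ 2 = fun η => V μ s η 0 n ^ 2 := rfl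
    rw [e', e]
    refine m2.trans (mul_le_mul_of_nonneg_right ?_ (by positivity))
    have := le_abs_self A
    linarith

/-- The lower bound of the variance in the form of `KPZ.lean`. -/
theorem vw_of (h : In μ s c C n₀) (f : Fac μ s) : VW96 μ s := by
  obtain ⟨a, ha, n₁, h1⟩ := f.varw
  obtain ⟨b, B, hb, hB, h2⟩ := sV_EE f
  refine ⟨a / B ^ 2, by positivity, max n₁ 1, fun n hn => ?_⟩
  have hn1 : 1 ≤ n := (le_max_right _ _).trans hn
  have h3 := h1 n ((le_max_left _ _).trans hn)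
  have h4 := (h2 n hn1).2
  have h5 : Var[fun η => V μ s η 0 n; law μ] = sV μ s n ^ 2 := by
    rw [sV, Real.sq_sqrt (variance_nonneg _ _)]
  have hs : 0 ≤ sV μ s n := Real.sqrt_nonneg _
  have h6 : sV μ s n ^ 2 ≤ (B * EE μ s n) ^ 2 := pow_le_pow_left₀ hs h4 2
  have hw := h.wd_nonneg n
  rw [h5] at h3
  have h7 := mul_le_mul_of_nonneg_left h6 hw
  rw [div_mul_eq_mul_div, div_le_iff₀ (by positivity)]
  calc a * n ≤ wd μ s n * sV μ s n ^ 2 := h3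
    _ ≤ wd μ s n * (B * EE μ s n) ^ 2 := h7
    _ = wd μ s n * EE μ s n ^ 2 * B ^ 2 := by ring

/-- The unit grows at least like a power. -/
theorem EE_pow (h : In μ s c C n₀) : ∃ b K : ℝ, 0 < b ∧ 0 < K ∧ ∀ n : ℕ, 1 ≤ n → K * (n : ℝ) ^ b ≤ EE μ s n := by
  obtain ⟨J, n₁, hJ⟩ := scale_a h 2
  obtain ⟨b, hb⟩ : ∃ b : ℝ, b = 1 / (J + 1) := ⟨_, rfl⟩
  have hJ0 : (0 : ℝ) < J + 1 := by positivity
  have hb0 : 0 < b := by rw [hb]; positivity
  obtain ⟨N, hN⟩ : ∃ N : ℕ, N = max n₁ (2 ^ J) := ⟨_, rfl⟩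
  have hN1 : 1 ≤ N := by rw [hN]; exact (Nat.one_le_two_pow).trans (le_max_right _ _)
  have hNR : (1 : ℝ) ≤ N := by exact_mod_cast hN1
  have hNp : (1 : ℝ) ≤ (N : ℝ) ^ b := Real.one_le_rpow hNR hb0.le
  refine ⟨b, 1 / (N : ℝ) ^ b, hb0, by positivity, fun n hn => ?_⟩
  induction n using Nat.strong_induction_on with
  | _ n ih =>
    have hnR : (1 : ℝ) ≤ n := by exact_mod_cast hn
    rcases le_or_gt n N with hnN | hnN
    · have h1 : (n : ℝ) ^ b ≤ (N : ℝ) ^ b := Real.rpow_le_rpow (by linarith) (by exact_mod_cast hnN) hb0.le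
      have h2 : 1 / (N : ℝ) ^ b * (n : ℝ) ^ b ≤ 1 := by
        rw [one_div, inv_mul_le_iff₀ (by linarith), mul_one]
        exact h1
      exact h2.trans (one_le_EE (μ := μ) (s := s) n)
    · obtain ⟨m, hm⟩ : ∃ m : ℕ, m = n / 2 ^ J := ⟨_, rfl⟩
      have h2J : 0 < 2 ^ J := by positivity
      have hnJ : 2 ^ J < n := lt_of_le_of_lt (by rw [hN]; exact le_max_right _ _) hnN
      have hm1 : 1 ≤ m := by
        rw [hm, Nat.one_le_div_iff h2J]
        exact hnJ.le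
      have hmn : 2 ^ J * m ≤ n := by
        rw [hm]
        exact Nat.mul_div_le n (2 ^ J)
      have hlt : n < 2 ^ (J + 1) * m := by
        have h1 : n < 2 ^ J * (m + 1) := by
          rw [hm]
          exact Nat.lt_mul_div_succ n h2J
        have h2 : 2 ^ J * (m + 1) ≤ 2 ^ J * (2 * m) := Nat.mul_le_mul_left _ (by omega)
        calc n < 2 ^ J * (m + 1) := h1
          _ ≤ 2 ^ J * (2 * m) := h2
          _ = 2 ^ (J + 1) * m := by ring
      have h3 := hJ m n ((by rw [hN] at hnN; exact (le_max_left _ _).trans hnN.le)) hmn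
      rcases Nat.eq_zero_or_pos J with hJz | hJp
      · exfalso
        subst hJz
        simp only [pow_zero, one_mul, Nat.div_one] at hm hmn h3
        subst hm
        have hE := one_le_EE (μ := μ) (s := s) m
        linarith
      · have hmlt : m < n := by
          have h4 : 2 * m ≤ 2 ^ J * m := by
            refine Nat.mul_le_mul_right _ ?_
            calc 2 = 2 ^ 1 := rfl
              _ ≤ 2 ^ J := Nat.pow_le_pow_right (by norm_num) hJp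
          omega
        have h4 := ih m hmlt hm1
        have h5 : (n : ℝ) ^ b ≤ 2 * (m : ℝ) ^ b := by
          have h6 : (n : ℝ) ≤ 2 ^ (J + 1) * m := by exact_mod_cast hlt.le
          calc (n : ℝ) ^ b ≤ (2 ^ (J + 1) * (m : ℝ)) ^ b := Real.rpow_le_rpow (by linarith) h6 hb0.le
            _ = (2 ^ (J + 1) : ℝ) ^ b * (m : ℝ) ^ b := Real.mul_rpow (by positivity) (by positivity)
            _ = 2 * (m : ℝ) ^ b := by
              congr 1
              rw [← Real.rpow_natCast 2 (J + 1), ← Real.rpow_mul (by norm_num), hb]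
              push_cast
              rw [mul_one_div_cancel hJ0.ne', Real.rpow_one]
        have hK : 0 < 1 / (N : ℝ) ^ b := by positivity
        calc 1 / (N : ℝ) ^ b * (n : ℝ) ^ b ≤ 1 / (N : ℝ) ^ b * (2 * (m : ℝ) ^ b) := mul_le_mul_of_nonneg_left h5 hK.le
          _ = 2 * (1 / (N : ℝ) ^ b * (m : ℝ) ^ b) := by ring
          _ ≤ 2 * EE μ s m := by linarith
          _ ≤ EE μ s n := h3

/-- The unit grows by any factor. -/
theorem EE_grow (h : In μ s c C n₀) (B : ℝ) : ∃ J n₁ : ℕ, ∀ n : ℕ, n₁ ≤ n → B * EE μ s n ≤ EE μ s (2 ^ J * n) := by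
  obtain ⟨J, n₁, hJ⟩ := scale_a h B
  refine ⟨J, n₁, fun n hn => hJ n (2 ^ J * n) ?_ le_rfl⟩
  exact hn.trans (Nat.le_mul_of_pos_left n (by positivity))

/-- The width grows by any factor. -/
theorem wd_grow (h : In μ s c C n₀) (B : ℝ) (hB : 0 ≤ B) : ∃ J n₁ : ℕ, ∀ n : ℕ, n₁ ≤ n →
    B * EE μ s n ≤ EE μ s (2 ^ J * n) ∧ B * wd μ s n ≤ wd μ s (2 ^ J * n) := by
  obtain ⟨J, n₁, hJ⟩ := EE_grow h (2 * B)
  obtain ⟨n₂, hg⟩ := wd_growth h
  refine ⟨J, max n₁ n₂, fun n hn => ?_⟩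
  have hE := one_le_EE (μ := μ) (s := s) n
  have h1 := hJ n ((le_max_left _ _).trans hn)
  have h2 := hg n (2 ^ J * n) ((le_max_right _ _).trans hn) (Nat.le_mul_of_pos_left n (by positivity))
  have hw : 0 ≤ wd μ s n := h.wd_nonneg n
  refine ⟨by nlinarith, ?_⟩
  have h3 : wd μ s n * (2 * B * EE μ s n) ≤ 2 * EE μ s n * wd μ s (2 ^ J * n) :=
    (mul_le_mul_of_nonneg_left h1 hw).trans h2
  have hE0 : 0 < 2 * EE μ s n := by linarith
  refine le_of_mul_le_mul_left ?_ hE0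
  nlinarith

end Pool.Agent.W_7d29a1_HK20
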