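import Pool.Agent.W_7d29a1_HK20.MidS
import Pool.Agent.W_7d29a1_HS.MaxM
import Pool.Agent.W_7d29a1_SR.NuChi

/-!
MP_7d29a1_pr, TRACK H, part 3, section (h): the scaling law at the force `h` on the probability space of the problem, for any
width `w` of the order of `wd μ (2 h)` (`Cmp20`). The case `h = 0` is `W_7d29a1_SR.FinS`. (helper20)
-/

set_option autoImplicit false

namespace Pool.Agent.W_7d29a1_HK20

open MeasureTheory ProbabilityTheory Filter Topology
open Pool.Agent.W_7d29a1_F Pool.Agent.W_7d29a1_h4g Pool.Agent.W_7d29a1_H Pool.Agent.W_7d29a1_HS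
open Pool.Agent.W_7d29a1_h47 (Lam walk energy endMGF forceP forceE)
open Pool.Agent.W_7d29a1_SR (toF toF_integral toF_real nu_eq_limsup chi_eq_liminf)

section pure

/-- One form for all the tails. -/
theorem tail_le20 {A a g c C : ℝ} (ha : c ≤ a) (hg : c ≤ g) (h0 : 0 < c) (h1 : c ≤ 1) (hC : 3 * |A| ≤ C) {s : ℝ} (hs : 0 ≤ s) :
    A * Real.exp (-(a * s ^ g)) ≤ C * Real.exp (-(c * s ^ c)) := by
  have hA := le_abs_self A
  have hA0 := abs_nonneg A
  have hC0 : 0 ≤ C := by linarith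
  rcases le_total s 1 with hs1 | hs1
  · have h2 : c * s ^ c ≤ 1 := by
      have h3 : s ^ c ≤ 1 := Real.rpow_le_one hs hs1 h0.le
      have h4 : 0 ≤ s ^ c := Real.rpow_nonneg hs c
      nlinarith
    have h3 : Real.exp (-1) ≤ Real.exp (-(c * s ^ c)) := Real.exp_le_exp.2 (by linarith)
    have h4 : Real.exp (-(a * s ^ g)) ≤ 1 := by
      refine Real.exp_le_one_iff.2 ?_
      have : 0 ≤ a * s ^ g := mul_nonneg (by linarith) (Real.rpow_nonneg hs g)
      linarith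
    have h5 : (1 : ℝ) / 3 ≤ Real.exp (-1) := by
      rw [Real.exp_neg, ← one_div]
      exact one_div_le_one_div_of_le (Real.exp_pos 1) (by linarith [Real.exp_one_lt_d9])
    have h6 := Real.exp_pos (-(a * s ^ g))
    calc A * Real.exp (-(a * s ^ g)) ≤ |A| * Real.exp (-(a * s ^ g)) := mul_le_mul_of_nonneg_right hA h6.le
      _ ≤ |A| * 1 := mul_le_mul_of_nonneg_left h4 hA0
      _ = 3 * |A| * (1 / 3) := by ring
      _ ≤ C * (1 / 3) := mul_le_mul_of_nonneg_right hC (by norm_num)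
      _ ≤ C * Real.exp (-(c * s ^ c)) := mul_le_mul_of_nonneg_left (h5.trans h3) hC0
  · have h2 : s ^ c ≤ s ^ g := Real.rpow_le_rpow_of_exponent_le hs1 hg
    have h3 : 0 ≤ s ^ c := Real.rpow_nonneg hs c
    have h4 : c * s ^ c ≤ a * s ^ g := mul_le_mul ha h2 h3 (by linarith)
    have h5 : Real.exp (-(a * s ^ g)) ≤ Real.exp (-(c * s ^ c)) := Real.exp_le_exp.2 (by linarith)
    have h6 := Real.exp_pos (-(a * s ^ g))
    calc A * Real.exp (-(a * s ^ g)) ≤ |A| * Real.exp (-(a * s ^ g)) := mul_le_mul_of_nonneg_right hA h6.le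
      _ ≤ C * Real.exp (-(a * s ^ g)) := mul_le_mul_of_nonneg_right (by linarith) h6.le
      _ ≤ _ := mul_le_mul_of_nonneg_left h5 hC0

/-- A stretched exponential is smaller than any power. -/
theorem exp_le_pow20 {c : ℝ} (hc : 0 < c) (q : ℕ) : ∃ K : ℝ, 0 ≤ K ∧ ∀ R : ℝ, 1 ≤ R → Real.exp (-(c * R ^ c)) ≤ K * (R ^ q)⁻¹ := by
  obtain ⟨k, hk⟩ : ∃ k : ℕ, (q : ℝ) / c ≤ k := exists_nat_ge _
  refine ⟨k.factorial / c ^ k, by positivity, fun R hR => ?_⟩
  have hR0 : 0 < R := by linarith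
  have h1 : (c * R ^ c) ^ k / k.factorial ≤ Real.exp (c * R ^ c) :=
    Real.pow_div_factorial_le_exp _ (by positivity) k
  have h2 : (R : ℝ) ^ q ≤ (R ^ c) ^ k := by
    rw [← Real.rpow_natCast R q, ← Real.rpow_natCast (R ^ c) k, ← Real.rpow_mul hR0.le]
    refine Real.rpow_le_rpow_of_exponent_le hR ?_
    rw [div_le_iff₀ hc] at hk
    linarith
  have h3 : c ^ k * R ^ q / k.factorial ≤ Real.exp (c * R ^ c) := by
    refine le_trans (div_le_div_of_nonneg_right ?_ (by positivity)) h1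
    rw [mul_pow]
    exact mul_le_mul_of_nonneg_left h2 (by positivity)
  have hk0 : (0 : ℝ) < k.factorial := by exact_mod_cast Nat.factorial_pos k
  have h4 : 0 < c ^ k * R ^ q / k.factorial := by positivity
  rw [Real.exp_neg]
  refine (inv_anti₀ h4 h3).trans (le_of_eq ?_)
  field_simp

end pure

/-- `w` is of the order of the width. -/
def Cmp20 (μ : Measure ℝ) (s : ℝ) (w : ℕ → ℝ) : Prop :=
  ∃ b B : ℝ, 0 < b ∧ 0 < B ∧ ∃ n₁ : ℕ, 1 ≤ n₁ ∧ ∀ n, n₁ ≤ n → b * wd μ s n ≤ w n ∧ w n ≤ B * wd μ s n ∧ 1 ≤ wd μ s n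

variable {Ω : Type*} [MeasurableSpace Ω] {P : Measure Ω} [IsProbabilityMeasure P] {ω : ℕ × ℤ → Ω → ℝ} {β h : ℝ}
  {μ : Measure ℝ} [IsProbabilityMeasure μ] {c C : ℝ} {n₀ : ℕ}

/-- The standard deviation is of the order of the unit. -/
theorem sgmS (f : Fac μ (2 * h)) (hmp : MeasurePreserving (fun x => toF β fun p => ω p x) P (law μ)) :
    ∃ a A : ℝ, 0 < a ∧ 0 < A ∧ ∀ n : ℕ, 1 ≤ n →
      a * EE μ (2 * h) n ≤ sgm P β h ω n ∧ sgm P β h ω n ≤ A * EE μ (2 * h) n := by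
  obtain ⟨a, A, ha, hA, h1⟩ := sV_EE f
  exact ⟨a, A, ha, hA, fun n hn => by rw [sgm_eq hmp]; exact h1 n hn⟩

/-- The tails of the free energy at the unit `σ_n`. -/
theorem devS (hI : In μ (2 * h) c C n₀) (f : Fac μ (2 * h))
    (hmp : MeasurePreserving (fun x => toF β fun p => ω p x) P (law μ)) :
    ∃ A a g : ℝ, 0 < a ∧ 0 < g ∧ ∃ n₁ : ℕ, ∀ n, n₁ ≤ n → ∀ s : ℝ, 0 ≤ s →
      P.real {x | s * sgm P β h ω n ≤
        |Real.log (parZ β h (fun p => ω p x) n) - ∫ y, Real.log (parZ β h (fun p => ω p y) n) ∂P|} ≤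
        A * Real.exp (-(a * s ^ g)) := by
  obtain ⟨A, a, g, ha, hg, hg1, h1⟩ := f.dev
  obtain ⟨b, B, hb, hB, h2⟩ := sV_EE f
  refine ⟨A, a * b ^ g, g, by positivity, hg, 1, fun n hn s hs => ?_⟩
  have h3 := h1 n hn (s * b) (by positivity)
  have h4 := (h2 n hn).1
  rw [dev_P hI.em hmp, sgm_eq hmp]
  refine (measureReal_mono (fun η hη => ?_) (measure_ne_top _ _)).trans (h3.trans (le_of_eq ?_))
  · rw [Set.mem_ofPred_eq] at hη ⊢
    refine le_trans ?_ hη
    have := mul_le_mul_of_nonneg_left h4 hs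
    linarith
  · rw [Real.mul_rpow hs hb.le]
    congr 2
    ring

/-- The exits from the ball of radius `R w_n`. -/
theorem exitS_P (f : Fac μ (2 * h)) (hmeas : ∀ p, Measurable (ω p))
    (hmp : MeasurePreserving (fun x => toF β fun p => ω p x) P (law μ)) {w : ℕ → ℝ} (hw : Cmp20 μ (2 * h) w) :
    ∃ A a g : ℝ, 0 < a ∧ 0 < g ∧ ∃ n₁ : ℕ, ∀ n, n₁ ≤ n → ∀ R : ℝ, 1 ≤ R →
      1 - ∫ x, forceP β h (fun p => ω p x) n (bal n (vel μ h) (R * w n)) ∂P ≤ A * Real.exp (-(a * R ^ g)) := by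
  obtain ⟨A, a, g, c', ha, hg, hg1, hc', n₁, hex⟩ := f.exit
  obtain ⟨b, B, hb, hB, n₂, hn₂, hsc⟩ := hw
  obtain ⟨a₂, ha₂⟩ : ∃ a₂ : ℝ, a₂ = min a c' := ⟨_, rfl⟩
  have ha₂0 : 0 < a₂ := by rw [ha₂]; exact lt_min ha hc'
  have ha₂a : a₂ ≤ a := by rw [ha₂]; exact min_le_left _ _
  have ha₂c : a₂ ≤ c' := by rw [ha₂]; exact min_le_right _ _
  have hb2 : 0 < b / 2 := by positivity
  refine ⟨(|A| + 1) * Real.exp a₂, a₂ * (b / 2) ^ g, g, by positivity, hg, max n₁ n₂, fun n hn R hR => ?_⟩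
  have hn1 : n₁ ≤ n := (le_max_left _ _).trans hn
  have hn2 : n₂ ≤ n := (le_max_right _ _).trans hn
  obtain ⟨hw1, hw2, hwd⟩ := hsc n hn2
  have hA0 := abs_nonneg A
  obtain ⟨R', hR'⟩ : ∃ R' : ℝ, R' = R * b / 2 := ⟨_, rfl⟩
  have hR'0 : 0 < R' := by rw [hR']; positivity
  have hpow : (b / 2) ^ g * R ^ g = R' ^ g := by
    rw [← Real.mul_rpow hb2.le (by linarith), hR']
    congr 1
    ring
  have hrew : a₂ * (b / 2) ^ g * R ^ g = a₂ * R' ^ g := by rw [mul_assoc, hpow]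
  rw [hrew]
  have hRg : 0 ≤ R' ^ g := Real.rpow_nonneg hR'0.le g
  rcases le_or_gt 1 R' with h1 | h1
  · -- the ball contains a strip
    have hsub : bal n (vel μ h) (2 * (R' * wd μ (2 * h) n)) ⊆ bal n (vel μ h) (R * w n) := by
      refine bal_mono n _ ?_
      have h3 := mul_le_mul_of_nonneg_left hw1 (show 0 ≤ R by linarith)
      have e : 2 * (R' * wd μ (2 * h) n) = R * (b * wd μ (2 * h) n) := by
        rw [hR']
        ring
      rw [e]
      exact h3
    have hint : ∫ x, forceP β h (fun p => ω p x) n (bal n (vel μ h) (2 * (R' * wd μ (2 * h) n))) ∂P ≤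
        ∫ x, forceP β h (fun p => ω p x) n (bal n (vel μ h) (R * w n)) ∂P :=
      integral_mono (forceP_integrable hmeas β h n _) (forceP_integrable hmeas β h n _) fun x => forceP_mono _ _ _ _ hsub
    have hE := one_le_EE (μ := μ) (s := 2 * h) n
    have h4 := exit_mean (P := P) (β := β) hmeas h n (bal n (vel μ h) (2 * (R' * wd μ (2 * h) n)))
      (t := Real.exp (-(c' * R' * EE μ (2 * h) n))) (Real.exp_pos _).le
    rw [exit_P hmp h n (by positivity)] at h4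
    have h5 := hex n hn1 R' h1
    have h6 : Real.exp (-(c' * R' * EE μ (2 * h) n)) ≤ Real.exp (-(a₂ * R' ^ g)) := by
      refine Real.exp_le_exp.2 (neg_le_neg ?_)
      have h7 : R' ^ g ≤ R' := by
        calc R' ^ g ≤ R' ^ (1 : ℝ) := Real.rpow_le_rpow_of_exponent_le h1 hg1
          _ = R' := Real.rpow_one _
      calc a₂ * R' ^ g ≤ c' * R' := mul_le_mul ha₂c h7 hRg hc'.le
        _ ≤ c' * R' * EE μ (2 * h) n := le_mul_of_one_le_right (by positivity) hE
    have h7 : A * Real.exp (-(a * R' ^ g)) ≤ |A| * Real.exp (-(a₂ * R' ^ g)) := by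
      have h8 : Real.exp (-(a * R' ^ g)) ≤ Real.exp (-(a₂ * R' ^ g)) :=
        Real.exp_le_exp.2 (neg_le_neg (mul_le_mul_of_nonneg_right ha₂a hRg))
      exact mul_le_mul (le_abs_self A) h8 (Real.exp_pos _).le hA0
    have h8 : 1 ≤ Real.exp a₂ := Real.one_le_exp ha₂0.le
    have h9 := Real.exp_pos (-(a₂ * R' ^ g))
    have h10 : (|A| + 1) * Real.exp (-(a₂ * R' ^ g)) ≤ (|A| + 1) * Real.exp a₂ * Real.exp (-(a₂ * R' ^ g)) :=
      mul_le_mul_of_nonneg_right (le_mul_of_one_le_right (by positivity) h8) h9.le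
    linarith
  · have h2 : 1 - ∫ x, forceP β h (fun p => ω p x) n (bal n (vel μ h) (R * w n)) ∂P ≤ 1 := by
      have h3 : 0 ≤ ∫ x, forceP β h (fun p => ω p x) n (bal n (vel μ h) (R * w n)) ∂P :=
        integral_nonneg fun x => forceP_nonneg _ _ _ _ _
      linarith
    refine h2.trans ?_
    have h3 : R' ^ g ≤ 1 := Real.rpow_le_one hR'0.le h1.le hg.le
    have h4 : (1 : ℝ) ≤ Real.exp a₂ * Real.exp (-(a₂ * R' ^ g)) := by
      rw [← Real.exp_add]
      refine Real.one_le_exp ?_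
      nlinarith
    calc (1 : ℝ) ≤ Real.exp a₂ * Real.exp (-(a₂ * R' ^ g)) := h4
      _ ≤ (|A| + 1) * (Real.exp a₂ * Real.exp (-(a₂ * R' ^ g))) := le_mul_of_one_le_left (by positivity) (by linarith)
      _ = _ := by ring

/-- The spread at the scale `w_n`, tight form. -/
theorem tightS_P (f : Fac μ (2 * h)) (hmeas : ∀ p, Measurable (ω p))
    (hmp : MeasurePreserving (fun x => toF β fun p => ω p x) P (law μ)) {w : ℕ → ℝ} (hw : Cmp20 μ (2 * h) w) {ε : ℝ}
    (hε : 0 < ε) : ∃ c' : ℝ, 0 < c' ∧ ∃ n₁ : ℕ, ∀ n, n₁ ≤ n →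
      ∫ x, forceP β h (fun p => ω p x) n (bal n (vel μ h) (c' * w n)) ∂P ≤ ε := by
  obtain ⟨c', hc', n₁, hs⟩ := f.tight ε hε
  obtain ⟨b, B, hb, hB, n₂, hn₂, hsc⟩ := hw
  refine ⟨2 * c' / B, by positivity, max n₁ n₂, fun n hn => ?_⟩
  obtain ⟨hw1, hw2, hwd⟩ := hsc n ((le_max_right _ _).trans hn)
  have h1 := hs n ((le_max_left _ _).trans hn)
  rw [← ball_P (P := P) (β := β) hmp h n (by positivity)] at h1
  refine le_trans (integral_mono (forceP_integrable hmeas β h n _) (forceP_integrable hmeas β h n _) fun x =>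
    forceP_mono _ _ _ _ (bal_mono n _ ?_)) h1
  have h2 := mul_le_mul_of_nonneg_left hw2 (show 0 ≤ 2 * c' / B by positivity)
  refine h2.trans (le_of_eq ?_)
  field_simp

/-- The luck at the unit `σ_n`. -/
theorem luckS_P (hI : In μ (2 * h) c C n₀) (f : Fac μ (2 * h))
    (hmp : MeasurePreserving (fun x => toF β fun p => ω p x) P (law μ)) (K : ℝ) :
    ∃ p : ℝ, 0 < p ∧ ∃ n₁ : ℕ, ∀ n, n₁ ≤ n →
      p ≤ P.real {x | K * sgm P β h ω n ≤
        Real.log (parZ β h (fun p => ω p x) n) - ∫ y, Real.log (parZ β h (fun p => ω p y) n) ∂P} := by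
  obtain ⟨a, A, ha, hA, h2⟩ := sV_EE f
  obtain ⟨p, hp, n₁, h1⟩ := f.luck (|K| * A)
  refine ⟨p, hp, max 1 n₁, fun n hn => ?_⟩
  rw [luck_P hI.em hmp, sgm_eq hmp]
  refine (h1 n ((le_max_right _ _).trans hn)).trans (measureReal_mono (fun η hη => ?_) (measure_ne_top _ _))
  rw [Set.mem_ofPred_eq] at hη ⊢
  have h3 := (h2 n ((le_max_left _ _).trans hn))
  have h4 := (f.mean n).2
  have h5 : K * sV μ (2 * h) n ≤ |K| * (A * EE μ (2 * h) n) := by
    have hs : 0 ≤ sV μ (2 * h) n := Real.sqrt_nonneg _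
    exact mul_le_mul (le_abs_self K) h3.2 hs (abs_nonneg K)
  linarith

/-- The moments of the maximal deviation from the line of velocity `vel μ h`. -/
theorem maxS (f : Fac μ (2 * h)) (hmeas : ∀ p, Measurable (ω p))
    (hmp : MeasurePreserving (fun x => toF β fun p => ω p x) P (law μ)) {w : ℕ → ℝ} (hw : Cmp20 μ (2 * h) w) (q : ℕ) :
    ∃ b B : ℝ, 0 < b ∧ 0 < B ∧ ∃ n₁ : ℕ, ∀ n, n₁ ≤ n →
      b * w n ^ q ≤ ∫ x, forceE β h (fun p => ω p x) n (fun s => mx (vel μ h) s ^ q) ∂P ∧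
      ∫ x, forceE β h (fun p => ω p x) n (fun s => mx (vel μ h) s ^ q) ∂P ≤ B * w n ^ q := by
  obtain ⟨A, a, g, ha, hg, n₁, hex⟩ := exitS_P (P := P) (β := β) (ω := ω) f hmeas hmp hw
  obtain ⟨c', hc', n₂, ht⟩ := tightS_P (P := P) (β := β) (ω := ω) f hmeas hmp hw (show (0 : ℝ) < 1 / 2 by norm_num)
  obtain ⟨b, B, hb, hB, n₃, hn₃, hsc⟩ := hw
  obtain ⟨b', B', hb', hB', h1⟩ := mx_moments (P := P) (ω := ω) (β := β) hmeas h (vel μ h) (w := w)
    (n₁ := max n₁ (max n₂ n₃)) (A := |A|) (a := a) (g := g) (c := c') (d := 1 / 2)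
    (fun n hn => by
      obtain ⟨h2, -, h3⟩ := hsc n ((le_max_right _ _).trans ((le_max_right _ _).trans hn))
      exact lt_of_lt_of_le (by positivity) h2)
    (abs_nonneg _) ha hg hc' (by norm_num)
    (fun n hn R hR => by
      rw [integral_sub (integrable_const _) (forceP_integrable hmeas β h n _), integral_const, probReal_univ, one_smul]
      exact (hex n ((le_max_left _ _).trans hn) R hR).trans
        (mul_le_mul_of_nonneg_right (le_abs_self _) (Real.exp_pos _).le))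
    (fun n hn => by
      have := ht n ((le_max_left _ _).trans ((le_max_right _ _).trans hn))
      linarith) q
  exact ⟨b', B', hb', hB', _, h1⟩

/-- The wandering exponent around the line of velocity `vel μ h`. -/
theorem nuS (f : Fac μ (2 * h)) (hmeas : ∀ p, Measurable (ω p))
    (hmp : MeasurePreserving (fun x => toF β fun p => ω p x) P (law μ)) {w : ℕ → ℝ} (hw : Cmp20 μ (2 * h) w)
    (h1 : ∀ᶠ n : ℕ in atTop, 1 ≤ w n ∧ w n ≤ n) :
    nuH P β h (vel μ h) ω = limsup (fun n : ℕ => Real.log (w n) / Real.log n) atTop := by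
  obtain ⟨A, a, g, ha, hg, n₁, hex⟩ := exitS_P (P := P) (β := β) (ω := ω) f hmeas hmp hw
  obtain ⟨c', hc', n₂, ht⟩ := tightS_P (P := P) (β := β) (ω := ω) f hmeas hmp hw (show (0 : ℝ) < 1 / 2 by norm_num)
  obtain ⟨N, hN⟩ := eventually_atTop.1 h1
  obtain ⟨k, hk⟩ : ∃ k : ℝ, k = min 1 (min a g) := ⟨_, rfl⟩
  have k0 : 0 < k := by rw [hk]; positivity
  have k1 : k ≤ 1 := by rw [hk]; exact min_le_left _ _
  have ka : k ≤ a := by rw [hk]; exact (min_le_right _ _).trans (min_le_left _ _)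
  have kg : k ≤ g := by rw [hk]; exact (min_le_right _ _).trans (min_le_right _ _)
  have hA := abs_nonneg A
  refine nu_eq_limsup (P := P) (p := fun n r x => forceP β h (fun p => ω p x) n (bal n (vel μ h) r)) (w := w)
    (n₀ := max N (max n₁ n₂)) (fun n r => forceP_meas hmeas β h n _) (fun n r x => forceP_nonneg _ _ _ _ _)
    (fun n r x => forceP_le_one _ _ _ _ _) (fun n x r r' hr => forceP_mono _ _ _ _ (bal_mono n _ hr))
    (fun n hn => (hN n ((le_max_left _ _).trans hn)).1) (fun n hn => (hN n ((le_max_left _ _).trans hn)).2) ?_ ?_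
  · intro q
    obtain ⟨K, hK, hq⟩ := exp_le_pow20 k0 q
    refine ⟨3 * |A| * K, fun n hn R hR => ?_⟩
    have h2 := hex n ((le_max_left _ _).trans ((le_max_right _ _).trans hn)) R hR
    have h3 := tail_le20 (A := A) (a := a) (g := g) (c := k) (C := 3 * |A|) ka kg k0 k1 le_rfl (s := R) (by linarith)
    have h4 := mul_le_mul_of_nonneg_left (hq R hR) (show 0 ≤ 3 * |A| by positivity)
    rw [mul_assoc]
    exact h2.trans (h3.trans h4)
  · refine ⟨c', 1 / 2, hc', by norm_num, fun n hn => ?_⟩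
    have := ht n ((le_max_right _ _).trans ((le_max_right _ _).trans hn))
    linarith

omit [IsProbabilityMeasure P] in
/-- The fluctuation exponent. -/
theorem chiS (h1 : ∀ᶠ n : ℕ in atTop, 1 ≤ sgm P β h ω n ∧ sgm P β h ω n ≤ n) :
    chiH P β h ω = liminf (fun n : ℕ => Real.log (sgm P β h ω n) / Real.log n) atTop := by
  obtain ⟨N, hN⟩ := eventually_atTop.1 h1
  have h2 := chi_eq_liminf (s := fun n => sgm P β h ω n) (n₀ := N) (fun n hn => (hN n hn).1) (fun n hn => (hN n hn).2)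
  rw [← h2]
  have h3 : ∀ n, sgm P β h ω n ^ 2 = Var[fun x => Real.log (parZ β h (fun p => ω p x) n); P] := fun n => by
    rw [sgm, Real.sq_sqrt (variance_nonneg _ _)]
  simp only [h3]
  rfl

end Pool.Agent.W_7d29a1_HK20
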