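import Pool.Agent.W_7d29a1_HK20.PowK20
import Pool.Agent.W_7d29a1_HK20.ExK20
import Pool.Agent.W_7d29a1_h47q.MainR

/-!
MP_7d29a1_pr, KPZRelation (helper20): the theorem on the probability space of the problem, version without the inputs of part 4
(no strict exponents, the maximum instead of the end point).
-/

set_option autoImplicit false

namespace Pool.Agent.W_7d29a1_HK20

open MeasureTheory ProbabilityTheory Filter Topology Set
open Pool.Agent.W_7d29a1_F Pool.Agent.W_7d29a1_h4g Pool.Agent.W_7d29a1_H Pool.Agent.W_7d29a1_HS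
open Pool.Agent.W_7d29a1_h47 (EM Nondeg Lam LamN walk energy endMGF forceP forceE EM_of Nondeg_of map_toEnv tendsto_logZ
  log_endMGF)
open Pool.Agent.W_7d29a1_SR (toF mp_toF)

/-- The inputs at all tilts, parts 1 - 3 of TRACK H (law of the environment). -/
structure InpB20 (μ : Measure ℝ) [IsProbabilityMeasure μ] : Prop where
  inn : ∀ s : ℝ, ∃ (c C : ℝ) (n₀ : ℕ), In μ s c C n₀
  fac : ∀ s : ℝ, Fac μ s
  dbl : ∀ H : ℝ, DblH μ (Icc (-H) H)

/-- **KPZRelation** from the inputs. -/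
theorem main_KB20 (hInp : ∀ (μ : Measure ℝ) [IsProbabilityMeasure μ], EM μ → Nondeg μ → InpB20 μ)
    {Ω : Type*} [MeasurableSpace Ω] (P : Measure Ω) [IsProbabilityMeasure P]
    (ω : ℕ × ℤ → Ω → ℝ) (hmeas : ∀ p, Measurable (ω p)) (hindep : iIndepFun ω P)
    (hident : ∀ p q, IdentDistrib (ω p) (ω q) P P) (hnc : ¬ ∃ c : ℝ, ∀ᵐ x ∂P, ω (0, 0) x = c)
    (hexp : ∀ b : ℝ, Integrable (fun x => Real.exp (b * ω (0, 0) x)) P) {β : ℝ} (hβ : 0 < β) :
    ∃ (lam : ℝ → ℝ) (σ : ℝ → ℕ → ℝ), Differentiable ℝ lam ∧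
      (∀ h, ∀ᵐ x ∂P, Tendsto (fun n : ℕ => Real.log (endMGF β h (fun p => ω p x) n) / n) atTop (𝓝 (lam h))) ∧
      (∀ h n, σ h n = Real.sqrt (Var[fun x => Real.log (parZ β h (fun p => ω p x) n); P])) ∧
      -- a dense set of forces
      (∃ T : Set ℝ, Dense T ∧ ∀ h ∈ T, ∃ c C : ℝ, 0 < c ∧
        (∀ r : ℝ, |r| ≤ 1 → c * r ^ 2 ≤ lam (h + r) - lam h - r * deriv lam h ∧
          lam (h + r) - lam h - r * deriv lam h ≤ C * r ^ 2) ∧
        (∀ᶠ n : ℕ in atTop,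
          c * (n * σ h n) ≤ ∫ x, forceE β h (fun p => ω p x) n (fun s => mx (deriv lam h) s ^ 2) ∂P ∧
          ∫ x, forceE β h (fun p => ω p x) n (fun s => mx (deriv lam h) s ^ 2) ∂P ≤ C * (n * σ h n) ∧
          c * (n : ℝ) ^ (1 / 5 : ℝ) ≤ σ h n ∧ σ h n ≤ C * (n : ℝ) ^ (1 / 2 : ℝ)) ∧
        (∀ᶠ n : ℕ in atTop, ∀ R : ℝ, 1 ≤ R → 1 - ∫ x, forceP β h (fun p => ω p x) n
          (bal n (deriv lam h) (R * Real.sqrt (n * σ h n))) ∂P ≤ C * Real.exp (-(c * R ^ c))) ∧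
        (∀ ε : ℝ, 0 < ε → ∃ a : ℝ, 0 < a ∧ ∀ᶠ n : ℕ in atTop, ∫ x, forceP β h (fun p => ω p x) n
          (bal n (deriv lam h) (a * Real.sqrt (n * σ h n))) ∂P ≤ ε) ∧
        (∀ q : ℕ, ∃ a A : ℝ, 0 < a ∧ ∀ᶠ n : ℕ in atTop,
          a * Real.sqrt (n * σ h n) ^ q ≤ ∫ x, forceE β h (fun p => ω p x) n (fun s => mx (deriv lam h) s ^ q) ∂P ∧
          ∫ x, forceE β h (fun p => ω p x) n (fun s => mx (deriv lam h) s ^ q) ∂P ≤ A * Real.sqrt (n * σ h n) ^ q) ∧
        2 * nuH P β h (deriv lam h) ω - 1 = limsup (fun n : ℕ => Real.log (σ h n) / Real.log n) atTop ∧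
        chiH P β h ω = liminf (fun n : ℕ => Real.log (σ h n) / Real.log n) atTop ∧
        1 / 5 ≤ chiH P β h ω ∧ chiH P β h ω ≤ 2 * nuH P β h (deriv lam h) ω - 1 ∧
        nuH P β h (deriv lam h) ω ≤ 3 / 4) ∧
      -- almost every force
      (∀ᵐ h : ℝ, ∃ C : ℝ,
        (∀ᶠ n : ℕ in atTop, ∫ x, forceE β h (fun p => ω p x) n (fun s => mx (deriv lam h) s ^ 2) ∂P ≤ C * (n * σ h n)) ∧
        2 * nuH P β h (deriv lam h) ω - 1 ≤ limsup (fun n : ℕ => Real.log (σ h n) / Real.log n) atTop ∧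
        1 / 5 ≤ chiH P β h ω ∧ nuH P β h (deriv lam h) ω ≤ 3 / 4) ∧
      -- almost every velocity
      (∀ᵐ v : ℝ, ∀ h : ℝ, deriv lam h = v → ∃ c : ℝ, 0 < c ∧
        (∀ᶠ n : ℕ in atTop, c * (n * σ h n) ≤ ∫ x, forceE β h (fun p => ω p x) n (fun s => mx v s ^ 2) ∂P) ∧
        chiH P β h ω ≤ 2 * nuH P β h v ω - 1 ∧ 3 / 5 ≤ nuH P β h v ω) := by
  obtain ⟨μ, hμdef⟩ : ∃ μ : Measure ℝ, μ = P.map fun x => β * ω (0, 0) x := ⟨_, rfl⟩
  have hm0 : Measurable fun x => β * ω (0, 0) x := (hmeas _).const_mul β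
  have hprob : IsProbabilityMeasure μ := by
    rw [hμdef]
    exact Measure.isProbabilityMeasure_map hm0.aemeasurable
  have hμ : EM μ := by
    rw [hμdef]
    exact EM_of (hmeas _) hexp β
  have hnd : Nondeg μ := by
    rw [hμdef]
    exact Nondeg_of (hmeas _) hnc hβ
  have hmpE := map_toEnv hmeas hindep hident β
  rw [← hμdef] at hmpE
  have hmp := mp_toF hmeas hindep hident β
  rw [← hμdef] at hmp
  have hI := hInp μ hμ hnd
  -- the free energy
  have hdl : ∀ h : ℝ, HasDerivAt (LamN μ) (vel μ h) h := fun h => (Lam_hasDeriv20 hμ hnd h).sub_const (Lam μ 0)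
  have hdv : ∀ h : ℝ, deriv (LamN μ) h = vel μ h := fun h => (hdl h).deriv
  have hlim : ∀ h, ∀ᵐ x ∂P, Tendsto (fun n : ℕ => Real.log (endMGF β h (fun p => ω p x) n) / n) atTop (𝓝 (LamN μ h)) := by
    intro h
    filter_upwards [hmpE.quasiMeasurePreserving.ae (tendsto_logZ hμ h), hmpE.quasiMeasurePreserving.ae (tendsto_logZ hμ 0)]
      with x hx1 hx2
    refine (hx1.sub hx2).congr fun n => ?_
    rw [log_endMGF, sub_div]
  obtain ⟨⟨T, hT, hTall⟩, hF, hV⟩ := kpz_P20 hμ hnd hI.dbl hI.inn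
    (fun s => by
      obtain ⟨c, C, n₀, h1⟩ := hI.inn s
      exact vw_of h1 (hI.fac s))
    (σ := fun h => sgm P β h ω) (w := fun h => wd μ (2 * h))
    (fun h => by
      obtain ⟨c, C, n₀, h1⟩ := hI.inn (2 * h)
      exact ord_sgm20 h1 (hI.fac _) hmp)
  refine ⟨LamN μ, fun h => sgm P β h ω, fun h => (hdl h).differentiableAt, hlim, fun h n => rfl,
    ⟨T, hT, fun h hh => ?_⟩, ?_, ?_⟩
  · -- the dense set
    obtain ⟨c, C, hc, hq, hev, hsup, hinf⟩ := hTall h hh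
    obtain ⟨c₁, C₁, n₁, hi⟩ := hI.inn (2 * h)
    have f := hI.fac (2 * h)
    have hns : ∀ n : ℕ, 0 ≤ (n : ℝ) * sgm P β h ω n := fun n => mul_nonneg (Nat.cast_nonneg n) (Real.sqrt_nonneg _)
    have hk : ∀ᶠ n : ℕ in atTop, c * (n * sgm P β h ω n) ≤ wd μ (2 * h) n ^ 2 ∧
        wd μ (2 * h) n ^ 2 ≤ max C 1 * (n * sgm P β h ω n) := by
      filter_upwards [hev] with n h1
      exact ⟨h1.1, h1.2.1.trans (mul_le_mul_of_nonneg_right (le_max_left _ _) (hns n))⟩
    have hC1 : 0 < max C 1 := lt_max_of_lt_right one_pos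
    obtain ⟨k, K, hk0, htail, htight, hmom⟩ := coreT20 (P := P) (β := β) (ω := ω) hi f hmeas hmp hc hC1 hk
    obtain ⟨a₂, A₂, ha₂, hM2⟩ := hmom 2
    have hbσ := bd_sgm20 (P := P) (β := β) (ω := ω) hi f hmp
    have hbw := bd_wd20 hi
    have hnu := nuS (P := P) (β := β) (ω := ω) f hmeas hmp (cmp_wd20 hi) hbw
    have hchi : chiH P β h ω = liminf (lg20 (sgm P β h ω)) atTop := chiS hbσ
    have hnu2 : 2 * nuH P β h (vel μ h) ω - 1 = limsup (lg20 (sgm P β h ω)) atTop := by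
      rw [hnu]
      exact hsup.symm
    have hl1 := low20 hbσ hc (hev.mono fun n h1 => h1.2.2.1)
    have hl2 := up20 hbσ hC1 (hev.mono fun n h1 => h1.2.2.2.1.trans (mul_le_mul_of_nonneg_right (le_max_left _ _)
      (Real.rpow_nonneg (Nat.cast_nonneg n) _)))
    have hl3 := inf_le_sup20 hbσ
    obtain ⟨e, he⟩ : ∃ e : ℝ, e = min (min c a₂) (min 1 k) := ⟨_, rfl⟩
    have he0 : 0 < e := by rw [he]; positivity
    have hex1 : e ≤ min c a₂ := by rw [he]; exact min_le_left _ _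
    have hex2 : e ≤ min 1 k := by rw [he]; exact min_le_right _ _
    have hec : e ≤ c := hex1.trans (min_le_left _ _)
    have hea : e ≤ a₂ := hex1.trans (min_le_right _ _)
    have he1 : e ≤ 1 := hex2.trans (min_le_left _ _)
    have hek : e ≤ k := hex2.trans (min_le_right _ _)
    obtain ⟨D, hD⟩ : ∃ D : ℝ, D = max (max C A₂) (3 * |K|) := ⟨_, rfl⟩
    have hDC : C ≤ D := by rw [hD]; exact (le_max_left _ _).trans (le_max_left _ _)
    have hDA : A₂ ≤ D := by rw [hD]; exact (le_max_right _ _).trans (le_max_left _ _)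
    have hDK : 3 * |K| ≤ D := by rw [hD]; exact le_max_right _ _
    simp only [hdv h]
    refine ⟨e, D, he0, fun r hr => ?_, ?_, ?_, htight, hmom, hnu2, hchi, ?_, ?_, ?_⟩
    · have h1 := hq r hr
      have h2 : LamN μ (h + r) - LamN μ h - r * vel μ h = Lam μ (h + r) - Lam μ h - r * vel μ h := by
        unfold LamN
        ring
      rw [h2]
      exact ⟨(mul_le_mul_of_nonneg_right hec (sq_nonneg r)).trans h1.1,
        h1.2.trans (mul_le_mul_of_nonneg_right hDC (sq_nonneg r))⟩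
    · filter_upwards [hM2, hev] with n g2 g3
      have hnn : (0 : ℝ) ≤ n := Nat.cast_nonneg n
      rw [Real.sq_sqrt (hns n)] at g2
      exact ⟨(mul_le_mul_of_nonneg_right hea (hns n)).trans g2.1, g2.2.trans (mul_le_mul_of_nonneg_right hDA (hns n)),
        (mul_le_mul_of_nonneg_right hec (Real.rpow_nonneg hnn _)).trans g3.2.2.1,
        g3.2.2.2.1.trans (mul_le_mul_of_nonneg_right hDC (Real.rpow_nonneg hnn _))⟩
    · filter_upwards [htail] with n g1 R hR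
      exact (g1 R hR).trans (tail_le20 hek hek he0 he1 hDK (by linarith))
    · rw [hchi]
      linarith
    · rw [hchi, hnu2]
      exact hl3
    · linarith
  · -- almost every force
    filter_upwards [hF] with h hh
    obtain ⟨c, C, hc, hev⟩ := hh
    obtain ⟨c₁, C₁, n₁, hi⟩ := hI.inn (2 * h)
    have f := hI.fac (2 * h)
    have hns : ∀ n : ℕ, 0 ≤ (n : ℝ) * sgm P β h ω n := fun n => mul_nonneg (Nat.cast_nonneg n) (Real.sqrt_nonneg _)
    have hC1 : 0 < max C 1 := lt_max_of_lt_right one_pos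
    have hk : ∀ᶠ n : ℕ in atTop, wd μ (2 * h) n ^ 2 ≤ max C 1 * (n * sgm P β h ω n) := by
      filter_upwards [hev] with n h1
      exact h1.1.trans (mul_le_mul_of_nonneg_right (le_max_left _ _) (hns n))
    obtain ⟨b₂, B₂, hb₂, hB₂, N, hN⟩ := maxS (P := P) (β := β) (ω := ω) f hmeas hmp (cmp_wd20 hi) 2
    have hbσ := bd_sgm20 (P := P) (β := β) (ω := ω) hi f hmp
    have hbw := bd_wd20 hi
    have hnu := nuS (P := P) (β := β) (ω := ω) f hmeas hmp (cmp_wd20 hi) hbw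
    have hchi : chiH P β h ω = liminf (lg20 (sgm P β h ω)) atTop := chiS hbσ
    have hrel := rel_up20 hbσ hbw hC1 hk
    have hl1 := low20 hbσ hc (hev.mono fun n h1 => h1.2.1)
    have hl2 := up20 hbw hC1 (hev.mono fun n h1 => h1.2.2.trans (mul_le_mul_of_nonneg_right (le_max_left _ _)
      (Real.rpow_nonneg (Nat.cast_nonneg n) _)))
    have hnu' : nuH P β h (vel μ h) ω = limsup (lg20 (wd μ (2 * h))) atTop := hnu
    rw [hdv h]
    refine ⟨B₂ * max C 1, ?_, ?_, ?_, ?_⟩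
    · filter_upwards [hk, eventually_ge_atTop N] with n g1 g2
      refine (hN n g2).2.trans ?_
      calc B₂ * wd μ (2 * h) n ^ 2 ≤ B₂ * (max C 1 * (n * sgm P β h ω n)) := mul_le_mul_of_nonneg_left g1 hB₂.le
        _ = B₂ * max C 1 * (n * sgm P β h ω n) := by ring
    · rw [hnu']
      exact hrel
    · rw [hchi]
      exact hl1
    · rw [hnu']
      exact hl2
  · -- almost every velocity
    filter_upwards [hV] with v hv h hh
    rw [hdv h] at hh
    obtain ⟨c, hc, hev⟩ := hv h hh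
    obtain ⟨c₁, C₁, n₁, hi⟩ := hI.inn (2 * h)
    have f := hI.fac (2 * h)
    have hns : ∀ n : ℕ, 0 ≤ (n : ℝ) * sgm P β h ω n := fun n => mul_nonneg (Nat.cast_nonneg n) (Real.sqrt_nonneg _)
    have hk : ∀ᶠ n : ℕ in atTop, c * (n * sgm P β h ω n) ≤ wd μ (2 * h) n ^ 2 := hev.mono fun n h1 => h1.1
    obtain ⟨a₂, B₂, ha₂, -, N, hN⟩ := maxS (P := P) (β := β) (ω := ω) f hmeas hmp (cmp_wd20 hi) 2
    have hbσ := bd_sgm20 (P := P) (β := β) (ω := ω) hi f hmp
    have hbw := bd_wd20 hi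
    have hnu := nuS (P := P) (β := β) (ω := ω) f hmeas hmp (cmp_wd20 hi) hbw
    have hchi : chiH P β h ω = liminf (lg20 (sgm P β h ω)) atTop := chiS hbσ
    have hnu' : nuH P β h (vel μ h) ω = limsup (lg20 (wd μ (2 * h))) atTop := hnu
    have hrel := rel_low20 hbσ hbw hc hk
    have hl1 := low20 hbw hc (hev.mono fun n h1 => h1.2)
    have hl3 := inf_le_sup20 hbσ
    have hl4 := inf_le_sup20 hbw
    rw [← hh]
    refine ⟨a₂ * c, by positivity, ?_, ?_, ?_⟩
    · filter_upwards [hk, eventually_ge_atTop N] with n g2 g3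
      refine le_trans ?_ (hN n g3).1
      calc a₂ * c * (n * sgm P β h ω n) = a₂ * (c * (n * sgm P β h ω n)) := by ring
        _ ≤ a₂ * wd μ (2 * h) n ^ 2 := mul_le_mul_of_nonneg_left g2 ha₂.le
    · rw [hchi, hnu']
      linarith
    · rw [hnu']
      linarith

end Pool.Agent.W_7d29a1_HK20
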