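import Pool.Agent.W_7d29a1_HK20.CoreS
import Pool.Agent.W_7d29a1_HS.TransB

/-!
MP_7d29a1_pr, TRACK H, part 3, section (h): the statements of the law of the environment on the probability space of the problem,
at the force `h` (tilt `2 h`, velocity `vel μ h`). The case `h = 0` is `W_7d29a1_SR.MidS`. (helper20)
-/

set_option autoImplicit false

namespace Pool.Agent.W_7d29a1_HK20

open MeasureTheory ProbabilityTheory Filter Topology
open Pool.Agent.W_7d29a1_F Pool.Agent.W_7d29a1_h4g Pool.Agent.W_7d29a1_H Pool.Agent.W_7d29a1_HS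
open Pool.Agent.W_7d29a1_h47 (Lam walk energy endMGF forceP)
open Pool.Agent.W_7d29a1_SR (toF toF_integral toF_real)

section law

variable {Ω : Type*} [MeasurableSpace Ω] {P : Measure Ω} [IsProbabilityMeasure P] {ω : ℕ × ℤ → Ω → ℝ} {β : ℝ}
  {μ : Measure ℝ} [IsProbabilityMeasure μ]

theorem sgm_eq (hmp : MeasurePreserving (fun x => toF β fun p => ω p x) P (law μ)) (h : ℝ) (n : ℕ) :
    sgm P β h ω n = sV μ (2 * h) n := by
  unfold sgm sV
  rw [var_parZ hmp]

theorem dev_eq (hμ : Pool.Agent.W_7d29a1_h47.EM μ)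
    (hmp : MeasurePreserving (fun x => toF β fun p => ω p x) P (law μ)) (h : ℝ) (n : ℕ) (x : Ω) :
    Real.log (parZ β h (fun p => ω p x) n) - ∫ y, Real.log (parZ β h (fun p => ω p y) n) ∂P =
      V μ (2 * h) (toF β fun p => ω p x) 0 n - ∫ η, V μ (2 * h) η 0 n ∂(law μ) := by
  rw [mean_parZ hμ hmp, V_toF]
  ring

/-- The tails of the free energy. -/
theorem dev_P (hμ : Pool.Agent.W_7d29a1_h47.EM μ)
    (hmp : MeasurePreserving (fun x => toF β fun p => ω p x) P (law μ)) (h : ℝ) (n : ℕ) (t : ℝ) :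
    P.real {x | t ≤ |Real.log (parZ β h (fun p => ω p x) n) - ∫ y, Real.log (parZ β h (fun p => ω p y) n) ∂P|} =
      (law μ).real {η | t ≤ |V μ (2 * h) η 0 n - ∫ ξ, V μ (2 * h) ξ 0 n ∂(law μ)|} := by
  have hA : MeasurableSet {η : Env | t ≤ |V μ (2 * h) η 0 n - ∫ ξ, V μ (2 * h) ξ 0 n ∂(law μ)|} :=
    measurableSet_le measurable_const ((measurable_V 0 n).sub_const _).abs
  rw [← toF_real hmp hA]
  congr 1
  ext x
  simp only [Set.mem_ofPred_eq, dev_eq hμ hmp]

/-- The luck. -/
theorem luck_P (hμ : Pool.Agent.W_7d29a1_h47.EM μ)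
    (hmp : MeasurePreserving (fun x => toF β fun p => ω p x) P (law μ)) (h : ℝ) (n : ℕ) (t : ℝ) :
    P.real {x | t ≤ Real.log (parZ β h (fun p => ω p x) n) - ∫ y, Real.log (parZ β h (fun p => ω p y) n) ∂P} =
      (law μ).real {η | t ≤ V μ (2 * h) η 0 n - ∫ ξ, V μ (2 * h) ξ 0 n ∂(law μ)} := by
  have hA : MeasurableSet {η : Env | t ≤ V μ (2 * h) η 0 n - ∫ ξ, V μ (2 * h) ξ 0 n ∂(law μ)} :=
    measurableSet_le measurable_const ((measurable_V 0 n).sub_const _)
  rw [← toF_real hmp hA]
  congr 1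
  ext x
  simp only [Set.mem_ofPred_eq, dev_eq hμ hmp]

omit [IsProbabilityMeasure μ] in
theorem measurable_cf (s r : ℝ) (n : ℕ) : Measurable fun η : Env => cf μ s r η 0 n := by
  unfold cf
  refine Finset.measurable_sum _ fun y _ => ?_
  exact (poly_WR (μ := μ) (s := s) (St μ s r 0) (0 : Pt) n y).measurable

/-- The exits. -/
theorem exit_P (hmp : MeasurePreserving (fun x => toF β fun p => ω p x) P (law μ)) (h : ℝ) (n : ℕ) {r : ℝ} (hr : 0 ≤ r)
    (t : ℝ) : P.real {x | t ≤ 1 - forceP β h (fun p => ω p x) n (bal n (vel μ h) (2 * r))} =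
      (law μ).real {η | t * Real.exp (V μ (2 * h) η 0 n) ≤ Real.exp (V μ (2 * h) η 0 n) - cf μ (2 * h) r η 0 n} := by
  have hA : MeasurableSet {η : Env | t * Real.exp (V μ (2 * h) η 0 n) ≤
      Real.exp (V μ (2 * h) η 0 n) - cf μ (2 * h) r η 0 n} :=
    measurableSet_le ((Real.measurable_exp.comp (measurable_V 0 n)).const_mul t)
      ((Real.measurable_exp.comp (measurable_V 0 n)).sub (measurable_cf (2 * h) r n))
  rw [← toF_real hmp hA]
  congr 1
  ext x
  simp only [Set.mem_ofPred_eq]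
  rw [← cf_toF μ β h (fun p => ω p x) n hr]
  have hE := Real.exp_pos (V μ (2 * h) (toF β fun p => ω p x) 0 n)
  rw [one_sub_div hE.ne', le_div_iff₀ hE]

/-- The mean of the probability of a ball. -/
theorem ball_P (hmp : MeasurePreserving (fun x => toF β fun p => ω p x) P (law μ)) (h : ℝ) (n : ℕ) {r : ℝ} (hr : 0 ≤ r) :
    ∫ x, forceP β h (fun p => ω p x) n (bal n (vel μ h) (2 * r)) ∂P =
      ∫ η, cf μ (2 * h) r η 0 n / Real.exp (V μ (2 * h) η 0 n) ∂(law μ) := by
  rw [← toF_integral hmp (F := fun η => cf μ (2 * h) r η 0 n / Real.exp (V μ (2 * h) η 0 n))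
    ((measurable_cf (2 * h) r n).div (Real.measurable_exp.comp (measurable_V 0 n)))]
  refine integral_congr_ae (Filter.Eventually.of_forall fun x => ?_)
  exact (cf_toF μ β h (fun p => ω p x) n hr).symm

/-- The mean exit probability from the tail. -/
theorem exit_mean (hmeas : ∀ p, Measurable (ω p)) (h : ℝ) (n : ℕ) (A : Set (Fin n → Bool)) {t : ℝ} (ht : 0 ≤ t) :
    1 - ∫ x, forceP β h (fun p => ω p x) n A ∂P ≤ P.real {x | t ≤ 1 - forceP β h (fun p => ω p x) n A} + t := by
  classical
  have hi := forceP_integrable (P := P) hmeas β h n A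
  have hm : Measurable fun x => 1 - forceP β h (fun p => ω p x) n A := measurable_const.sub (forceP_meas hmeas β h n A)
  have hS : MeasurableSet {x | t ≤ 1 - forceP β h (fun p => ω p x) n A} := measurableSet_le measurable_const hm
  have h1 : 1 - ∫ x, forceP β h (fun p => ω p x) n A ∂P = ∫ x, (1 - forceP β h (fun p => ω p x) n A) ∂P := by
    rw [integral_sub (integrable_const _) hi]
    simp
  rw [h1]
  have h2 : ∫ x, (1 - forceP β h (fun p => ω p x) n A) ∂P ≤
      ∫ x, ({x | t ≤ 1 - forceP β h (fun p => ω p x) n A}.indicator (fun _ => (1 : ℝ)) x + t) ∂P := by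
    refine integral_mono ((integrable_const _).sub hi)
      (((integrable_const (1 : ℝ)).indicator hS).add (integrable_const t)) fun x => ?_
    show 1 - forceP β h (fun p => ω p x) n A ≤ _
    by_cases hx : x ∈ {x | t ≤ 1 - forceP β h (fun p => ω p x) n A}
    · rw [Set.indicator_of_mem hx]
      have := forceP_nonneg β h (fun p => ω p x) n A
      linarith
    · rw [Set.indicator_of_notMem hx]
      rw [Set.mem_ofPred_eq, not_le] at hx
      linarith
  refine h2.trans (le_of_eq ?_)
  rw [integral_add ((integrable_const (1 : ℝ)).indicator hS) (integrable_const t), integral_indicator hS,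
    setIntegral_const, integral_const]
  simp

end law

end Pool.Agent.W_7d29a1_HK20
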