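import Pool.Agent.W_7d29a1_HK20.CoreK20

/-!
MP_7d29a1_pr, KPZRelation (helper20): the powers, with the strict exponents.
-/

set_option autoImplicit false

namespace Pool.Agent.W_7d29a1_HK20

open MeasureTheory ProbabilityTheory Filter Topology
open Pool.Agent.W_7d29a1_F Pool.Agent.W_7d29a1_h4g Pool.Agent.W_7d29a1_H Pool.Agent.W_7d29a1_HS
open Pool.Agent.W_7d29a1_SR (toF)

/-! ### Pure -/

/-- `σ ≥ n ^ ((1 + d) / 5)`. -/
theorem fifthS20 {x y n C a d : ℝ} (hn : 0 < n) (hC : 0 < C) (ha : 0 < a) (hx : 0 < x) (_ : 0 < y)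
    (h1 : y ^ 2 ≤ C * (n * x)) (h2 : n ^ (1 + d) ≤ y * (x / a) ^ 2) (h3 : C / a ^ 4 ≤ n ^ d) :
    n ^ ((1 + d) / 5) ≤ x := by
  have e1 : n ^ (1 + d) = n * n ^ d := by rw [Real.rpow_add hn, Real.rpow_one]
  have hd : 0 < n ^ d := Real.rpow_pos_of_pos hn d
  have h4 : (n ^ (1 + d)) ^ 2 ≤ (C * (n * x)) * (x / a) ^ 4 := by
    have h5 := pow_le_pow_left₀ (Real.rpow_nonneg hn.le _) h2 2
    calc (n ^ (1 + d)) ^ 2 ≤ (y * (x / a) ^ 2) ^ 2 := h5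
      _ = y ^ 2 * (x / a) ^ 4 := by ring
      _ ≤ _ := mul_le_mul_of_nonneg_right h1 (by positivity)
  have h5 : n ^ (1 + d) ≤ x ^ 5 := by
    have h6 : (C * (n * x)) * (x / a) ^ 4 = n * (C / a ^ 4 * x ^ 5) := by
      field_simp
    rw [h6, e1] at h4
    have h7 : n * (n ^ d * (n * n ^ d)) ≤ n * (n ^ d * x ^ 5) := by
      calc n * (n ^ d * (n * n ^ d)) = (n * n ^ d) ^ 2 := by ring
        _ ≤ n * (C / a ^ 4 * x ^ 5) := h4
        _ ≤ n * (n ^ d * x ^ 5) := mul_le_mul_of_nonneg_left (mul_le_mul_of_nonneg_right h3 (by positivity)) hn.le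
    rw [e1]
    exact le_of_mul_le_mul_left (le_of_mul_le_mul_left h7 hn) hd
  have h6 := Real.rpow_le_rpow (Real.rpow_nonneg hn.le _) h5 (show (0 : ℝ) ≤ 1 / 5 by norm_num)
  rw [← Real.rpow_natCast x 5, ← Real.rpow_mul hx.le, ← Real.rpow_mul hn.le] at h6
  norm_num at h6
  rw [show (1 + d) / 5 = (1 + d) * (1 / 5) by ring]
  exact h6

/-- `w ≥ n ^ ((3 + d / 2) / 5)`. -/
theorem threefifthS20 {x y n c a d : ℝ} (hn : 0 < n) (hc : 0 < c) (ha : 0 < a) (hx : 0 < x) (hy : 0 < y)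
    (h1 : c * (n * x) ≤ y ^ 2) (h2 : n ^ (1 + d) ≤ y * (x / a) ^ 2) (h3 : 1 / (c * a) ^ 2 ≤ n ^ (d / 2)) :
    n ^ ((3 + d / 2) / 5) ≤ y := by
  have e1 : n ^ (1 + d) = n * (n ^ (d / 2) * n ^ (d / 2)) := by
    rw [Real.rpow_add hn, Real.rpow_one, ← Real.rpow_add hn]
    ring_nf
  have hd : 0 < n ^ (d / 2) := Real.rpow_pos_of_pos hn _
  have e2 : n ^ (3 + d / 2) = n ^ 3 * n ^ (d / 2) := by
    rw [Real.rpow_add hn]
    norm_num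
  have h4 : x / a ≤ y ^ 2 / (c * a * n) := by
    rw [div_le_div_iff₀ ha (by positivity)]
    calc x * (c * a * n) = a * (c * (n * x)) := by ring
      _ ≤ a * y ^ 2 := mul_le_mul_of_nonneg_left h1 ha.le
      _ = y ^ 2 * a := by ring
  have h5 : n ^ (3 + d / 2) ≤ y ^ 5 := by
    have h6 : n ^ (1 + d) ≤ y * (y ^ 2 / (c * a * n)) ^ 2 :=
      h2.trans (mul_le_mul_of_nonneg_left (pow_le_pow_left₀ (by positivity) h4 2) hy.le)
    have h7 : y * (y ^ 2 / (c * a * n)) ^ 2 = 1 / (c * a) ^ 2 * y ^ 5 / n ^ 2 := by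
      field_simp
    rw [h7, le_div_iff₀ (by positivity), e1] at h6
    have h8 : n ^ (d / 2) * (n ^ 3 * n ^ (d / 2)) ≤ n ^ (d / 2) * y ^ 5 := by
      calc n ^ (d / 2) * (n ^ 3 * n ^ (d / 2)) = n * (n ^ (d / 2) * n ^ (d / 2)) * n ^ 2 := by ring
        _ ≤ 1 / (c * a) ^ 2 * y ^ 5 := h6
        _ ≤ n ^ (d / 2) * y ^ 5 := mul_le_mul_of_nonneg_right h3 (by positivity)
    rw [e2]
    exact le_of_mul_le_mul_left h8 hd
  have h6 := Real.rpow_le_rpow (Real.rpow_nonneg hn.le _) h5 (show (0 : ℝ) ≤ 1 / 5 by norm_num)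
  rw [← Real.rpow_natCast y 5, ← Real.rpow_mul hy.le, ← Real.rpow_mul hn.le] at h6
  norm_num at h6
  rw [show (3 + d / 2) / 5 = (3 + d / 2) * (1 / 5) by ring]
  exact h6

/-- Powers absorb constants. -/
theorem ev_pow20 (K : ℝ) {d : ℝ} (hd : 0 < d) : ∀ᶠ n : ℕ in atTop, K ≤ (n : ℝ) ^ d :=
  ((tendsto_rpow_atTop hd).comp tendsto_natCast_atTop_atTop).eventually_ge_atTop K

/-! ### The inputs of part 4 -/

/-- The strict inequality of Newman and Piza at the tilt `s`. -/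
def NP20 (μ : Measure ℝ) (s : ℝ) : Prop :=
  ∃ d : ℝ, 0 < d ∧ ∃ n₁ : ℕ, ∀ n, n₁ ≤ n → (n : ℝ) ^ (1 + d) ≤ wd μ s n * EE μ s n ^ 2

/-- Superconcentration at the tilt `s`. -/
def SC20 (μ : Measure ℝ) (s : ℝ) : Prop :=
  ∃ D e : ℝ, 0 < D ∧ 0 < e ∧ ∃ n₁ : ℕ, ∀ n : ℕ, n₁ ≤ n → EE μ s n ^ 2 ≤ D * (n : ℝ) ^ (1 - e)

variable {Ω : Type*} [MeasurableSpace Ω] {P : Measure Ω} [IsProbabilityMeasure P] {ω : ℕ × ℤ → Ω → ℝ} {β h : ℝ}
  {μ : Measure ℝ} [IsProbabilityMeasure μ] {c C : ℝ} {n₀ : ℕ}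

/-- `σ_n ≥ n ^ (1 / 5 + e)`. -/
theorem sgm_low20 (hI : In μ (2 * h) c C n₀) (f : Fac μ (2 * h)) (hN : NP20 μ (2 * h))
    (hmp : MeasurePreserving (fun x => toF β fun p => ω p x) P (law μ)) {B : ℝ} (hB : 0 < B)
    (hk : ∀ᶠ n : ℕ in atTop, wd μ (2 * h) n ^ 2 ≤ B * (n * sgm P β h ω n)) :
    ∃ e : ℝ, 0 < e ∧ ∀ᶠ n : ℕ in atTop, (n : ℝ) ^ (1 / 5 + e) ≤ sgm P β h ω n := by
  obtain ⟨a, A, ha, hA, h1⟩ := sgmS (P := P) (β := β) (ω := ω) f hmp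
  obtain ⟨d, hd, n₁, h2⟩ := hN
  refine ⟨d / 5, by positivity, ?_⟩
  filter_upwards [hk, eventually_ge_atTop 1, eventually_ge_atTop n₁, ev_pow20 (B / a ^ 4) hd, wd_large20 hI 1] with n h3 h4 h5 h6 h7
  have hn : (0 : ℝ) < n := by exact_mod_cast h4
  obtain ⟨h8, h9⟩ := h1 n h4
  have hE := EE_pos (μ := μ) (s := 2 * h) n
  have hs : 0 < sgm P β h ω n := lt_of_lt_of_le (by positivity) h8
  have h10 : EE μ (2 * h) n ≤ sgm P β h ω n / a := by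
    rw [le_div_iff₀ ha]
    linarith
  have h11 := fifthS20 (d := d) hn hB ha hs (by linarith) h3
    ((h2 n h5).trans (mul_le_mul_of_nonneg_left (pow_le_pow_left₀ hE.le h10 2) (by linarith))) h6
  rw [show 1 / 5 + d / 5 = (1 + d) / 5 by ring]
  exact h11

/-- `σ_n ≤ n ^ (1 / 2 - e)`. -/
theorem sgm_up20 (f : Fac μ (2 * h)) (hS : SC20 μ (2 * h))
    (hmp : MeasurePreserving (fun x => toF β fun p => ω p x) P (law μ)) :
    ∃ e : ℝ, 0 < e ∧ ∀ᶠ n : ℕ in atTop, sgm P β h ω n ≤ (n : ℝ) ^ (1 / 2 - e) := by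
  obtain ⟨a, A, ha, hA, h1⟩ := sgmS (P := P) (β := β) (ω := ω) f hmp
  obtain ⟨D, e, hD, he, n₁, h2⟩ := hS
  refine ⟨e / 4, by positivity, ?_⟩
  filter_upwards [eventually_ge_atTop 1, ev_pow20 (A ^ 2 * D) (show 0 < e / 2 by positivity), eventually_ge_atTop n₁]
    with n h4 h5 h6
  have hn : (0 : ℝ) < n := by exact_mod_cast h4
  obtain ⟨h8, h9⟩ := h1 n h4
  have hE := EE_pos (μ := μ) (s := 2 * h) n
  have hs : 0 < sgm P β h ω n := lt_of_lt_of_le (by positivity) h8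
  refine (pow_le_pow_iff_left₀ hs.le (by positivity) two_ne_zero).1 ?_
  have e1 : ((n : ℝ) ^ (1 / 2 - e / 4)) ^ 2 = (n : ℝ) ^ (e / 2) * (n : ℝ) ^ (1 - e) := by
    rw [← Real.rpow_natCast, ← Real.rpow_mul hn.le, ← Real.rpow_add hn]
    congr 1
    push_cast
    ring
  rw [e1]
  calc sgm P β h ω n ^ 2 ≤ (A * EE μ (2 * h) n) ^ 2 := pow_le_pow_left₀ hs.le h9 2
    _ = A ^ 2 * EE μ (2 * h) n ^ 2 := by ring
    _ ≤ A ^ 2 * (D * (n : ℝ) ^ (1 - e)) := mul_le_mul_of_nonneg_left (h2 n h6) (by positivity)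
    _ = A ^ 2 * D * (n : ℝ) ^ (1 - e) := by ring
    _ ≤ (n : ℝ) ^ (e / 2) * (n : ℝ) ^ (1 - e) := mul_le_mul_of_nonneg_right h5 (by positivity)

/-- `w_n ≥ n ^ (3 / 5 + e)`. -/
theorem wd_low20 (hI : In μ (2 * h) c C n₀) (f : Fac μ (2 * h)) (hN : NP20 μ (2 * h))
    (hmp : MeasurePreserving (fun x => toF β fun p => ω p x) P (law μ)) {b : ℝ} (hb : 0 < b)
    (hk : ∀ᶠ n : ℕ in atTop, b * (n * sgm P β h ω n) ≤ wd μ (2 * h) n ^ 2) :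
    ∃ e : ℝ, 0 < e ∧ ∀ᶠ n : ℕ in atTop, (n : ℝ) ^ (3 / 5 + e) ≤ wd μ (2 * h) n := by
  obtain ⟨a, A, ha, hA, h1⟩ := sgmS (P := P) (β := β) (ω := ω) f hmp
  obtain ⟨d, hd, n₁, h2⟩ := hN
  refine ⟨d / 10, by positivity, ?_⟩
  filter_upwards [hk, eventually_ge_atTop 1, eventually_ge_atTop n₁,
    ev_pow20 (1 / (b * a) ^ 2) (show 0 < d / 2 by positivity), wd_large20 hI 1] with n h3 h4 h5 h6 h7
  have hn : (0 : ℝ) < n := by exact_mod_cast h4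
  obtain ⟨h8, h9⟩ := h1 n h4
  have hE := EE_pos (μ := μ) (s := 2 * h) n
  have hs : 0 < sgm P β h ω n := lt_of_lt_of_le (by positivity) h8
  have h10 : EE μ (2 * h) n ≤ sgm P β h ω n / a := by
    rw [le_div_iff₀ ha]
    linarith
  have h11 := threefifthS20 (d := d) hn hb ha hs (by linarith) h3
    ((h2 n h5).trans (mul_le_mul_of_nonneg_left (pow_le_pow_left₀ hE.le h10 2) (by linarith))) h6
  rw [show 3 / 5 + d / 10 = (3 + d / 2) / 5 by ring]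
  exact h11

omit [IsProbabilityMeasure μ] in
/-- Superconcentration from the form with two scales. -/
theorem sc_two20 {s : ℝ} (h : ∃ (D e : ℝ) (n₁ : ℕ), 0 < D ∧ 0 < e ∧ e ≤ 1 ∧ 1 ≤ n₁ ∧ ∀ m n : ℕ, n₁ ≤ m → m ≤ n →
    EE μ s n ^ 2 ≤ D * ((n : ℝ) / m) ^ (1 - e) * EE μ s m ^ 2) (hE : ∀ n, 0 < EE μ s n) : SC20 μ s := by
  obtain ⟨D, e, n₁, hD, he, -, hn₁, h1⟩ := h
  have hm : (0 : ℝ) < n₁ := by exact_mod_cast hn₁
  have hE1 := hE n₁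
  refine ⟨D * EE μ s n₁ ^ 2 / (n₁ : ℝ) ^ (1 - e), e, by positivity, he, n₁, fun n hn => ?_⟩
  have h2 := h1 n₁ n le_rfl hn
  rw [Real.div_rpow (Nat.cast_nonneg n) hm.le] at h2
  refine h2.trans (le_of_eq ?_)
  ring

end Pool.Agent.W_7d29a1_HK20
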